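import Pool.Agent.Y465.SZ.Stm

/-!
Project Y465-SZ, job GAM: the combinatorial identity behind the decoration change.
-/

namespace Pool.Agent.Y284.SZ

open Pool.Agent.Y465.SZ

variable {A : Type} [DecidableEq A]

/-- a family of equivalence relations with merging and splitting -/
structure Fam (J : Finset A) (R : Finset A → A × Bool → A × Bool → Prop)
    (m : Finset A → ℤ) : Prop where
  eqv : ∀ K, Equivalence (R K)
  mg : ∀ K, K ⊆ J → ∀ f ∈ J, f ∉ K → ¬ R K (f, true) (f, false) →
      m (insert f K) = m K + 2 ∧ ∀ x y, R (insert f K) x y ↔ R K x y ∨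
        (R K x (f, true) ∧ R K y (f, false)) ∨ (R K x (f, false) ∧ R K y (f, true))
  sp : ∀ K, K ⊆ J → ∀ f ∈ J, f ∉ K → R K (f, true) (f, false) →
      m (insert f K) = m K ∧ ¬ R (insert f K) (f, true) (f, false) ∧
      ∀ x y, R K x y ↔ R (insert f K) x y ∨
        (R (insert f K) x (f, true) ∧ R (insert f K) y (f, false)) ∨
        (R (insert f K) x (f, false) ∧ R (insert f K) y (f, true))
  d0 : m J = m ∅ + 2

namespace Fam

variable {J : Finset A} {R : Finset A → A × Bool → A × Bool → Prop} {m : Finset A → ℤ}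

theorem refl (F : Fam J R m) {K : Finset A} (x : A × Bool) : R K x x := (F.eqv K).refl x
theorem symm (F : Fam J R m) {K : Finset A} {x y : A × Bool} (h : R K x y) : R K y x :=
  (F.eqv K).symm h
theorem trans (F : Fam J R m) {K : Finset A} {x y z : A × Bool} (h : R K x y) (h' : R K y z) :
    R K x z := (F.eqv K).trans h h'

/-- the two ends of `f` in any order -/
theorem pm (F : Fam J R m) {K : Finset A} {f : A} (b : Bool) :
    R K (f, b) (f, !b) ↔ R K (f, true) (f, false) := by
  cases b
  · exact ⟨fun h => F.symm h, fun h => F.symm h⟩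
  · exact Iff.rfl

theorem pm' (F : Fam J R m) {K : Finset A} {f : A} (h : R K (f, true) (f, false)) (a b : Bool) :
    R K (f, a) (f, b) := by
  cases a <;> cases b
  · exact F.refl _
  · exact F.symm h
  · exact h
  · exact F.refl _

theorem mono1 (F : Fam J R m) {K : Finset A} {f : A} (hK : K ⊆ J) (hf : f ∈ J) :
    m K ≤ m (insert f K) := by
  by_cases h : f ∈ K
  · rw [Finset.insert_eq_of_mem h]
  · by_cases h2 : R K (f, true) (f, false)
    · rw [(F.sp K hK f hf h h2).1]
    · rw [(F.mg K hK f hf h h2).1]; linarith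

theorem mono (F : Fam J R m) {K L : Finset A} (hKL : K ⊆ L) (hL : L ⊆ J) : m K ≤ m L := by
  have key : ∀ D : Finset A, D ⊆ J → m K ≤ m (D ∪ K) := by
    intro D
    induction D using Finset.induction_on with
    | empty => intro _; simp
    | insert a D ha ih =>
      intro hD
      rw [Finset.insert_subset_iff] at hD
      have h1 := ih hD.2
      have h2 : m (D ∪ K) ≤ m (insert a (D ∪ K)) :=
        F.mono1 (Finset.union_subset hD.2 (hKL.trans hL)) hD.1
      rw [Finset.insert_union]
      exact h1.trans h2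
  have := key L hL
  rwa [Finset.union_eq_left.2 hKL] at this

theorem hi_mono (F : Fam J R m) {K L : Finset A} (hKL : K ⊆ L) (hL : L ⊆ J)
    (hK : m K = m ∅ + 2) : m L = m ∅ + 2 := by
  have h1 := F.mono hKL hL
  have h2 := F.mono hL (le_refl J)
  have h3 := F.d0
  linarith

theorem hi_split (F : Fam J R m) {K : Finset A} (hK : K ⊆ J) (hm : m K = m ∅ + 2) {f : A}
    (hf : f ∈ J) (hfK : f ∉ K) : R K (f, true) (f, false) := by
  by_contra hn
  have h1 := (F.mg K hK f hf hfK hn).1
  have h2 := F.mono (K := insert f K) (L := J) (Finset.insert_subset hf hK) (le_refl J)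
  have h3 := F.d0
  linarith

theorem split_m (F : Fam J R m) {K : Finset A} {f : A} (hK : K ⊆ J) (hf : f ∈ J) (hfK : f ∉ K)
    (h : R K (f, true) (f, false)) : m (insert f K) = m K := (F.sp K hK f hf hfK h).1

theorem split_not (F : Fam J R m) {K : Finset A} {f : A} (hK : K ⊆ J) (hf : f ∈ J) (hfK : f ∉ K)
    (h : R K (f, true) (f, false)) : ¬ R (insert f K) (f, true) (f, false) :=
  (F.sp K hK f hf hfK h).2.1

theorem split_le (F : Fam J R m) {K : Finset A} {f : A} (hK : K ⊆ J) (hf : f ∈ J) (hfK : f ∉ K)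
    (h : R K (f, true) (f, false)) {x y : A × Bool} (hxy : R (insert f K) x y) : R K x y :=
  ((F.sp K hK f hf hfK h).2.2 x y).2 (Or.inl hxy)

theorem split_cases (F : Fam J R m) {K : Finset A} {f : A} (hK : K ⊆ J) (hf : f ∈ J) (hfK : f ∉ K)
    (h : R K (f, true) (f, false)) {x y : A × Bool} (hxy : R K x y)
    (hn : ¬ R (insert f K) x y) (b : Bool) :
    (R (insert f K) x (f, b) ∧ R (insert f K) y (f, !b)) ∨
      (R (insert f K) x (f, !b) ∧ R (insert f K) y (f, b)) := by
  rcases ((F.sp K hK f hf hfK h).2.2 x y).1 hxy with h1 | h1 | h1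
  · exact absurd h1 hn
  · cases b
    · exact Or.inr h1
    · exact Or.inl h1
  · cases b
    · exact Or.inl h1
    · exact Or.inr h1

theorem merge_m (F : Fam J R m) {K : Finset A} {f : A} (hK : K ⊆ J) (hf : f ∈ J) (hfK : f ∉ K)
    (h : ¬ R K (f, true) (f, false)) : m (insert f K) = m K + 2 := (F.mg K hK f hf hfK h).1

theorem merge_cases (F : Fam J R m) {K : Finset A} {f : A} (hK : K ⊆ J) (hf : f ∈ J) (hfK : f ∉ K)
    (h : ¬ R K (f, true) (f, false)) {x y : A × Bool} (hxy : R (insert f K) x y)
    (hn : ¬ R K x y) (b : Bool) :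
    (R K x (f, b) ∧ R K y (f, !b)) ∨ (R K x (f, !b) ∧ R K y (f, b)) := by
  rcases ((F.mg K hK f hf hfK h).2 x y).1 hxy with h1 | h1 | h1
  · exact absurd h1 hn
  · cases b
    · exact Or.inr h1
    · exact Or.inl h1
  · cases b
    · exact Or.inl h1
    · exact Or.inr h1

/-- the two possible directions -/
theorem dir_or (F : Fam J R m) {K : Finset A} {f g : A} (hK : K ⊆ J) (hf : f ∈ J) (hfK : f ∉ K)
    (h : R K (f, true) (f, false)) (hg : R K (g, true) (g, false))
    (hn : ¬ R (insert f K) (g, true) (g, false)) (a b : Bool) :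
    (R (insert f K) (g, a) (f, b) ∧ R (insert f K) (g, !a) (f, !b)) ∨
      (R (insert f K) (g, a) (f, !b) ∧ R (insert f K) (g, !a) (f, b)) :=
  F.split_cases hK hf hfK h (F.pm' hg a (!a)) (fun h' => hn ((F.pm a).1 h')) b

end Fam

/-- sign -/
def sn (s b : Bool) : Bool := if s then b else !b

theorem TA_J {R : A × Bool → A × Bool → Prop} (hR : Equivalence R) {S : Finset A} {e : A}
    {t t' : A → Bool} (he : e ∉ S) (ht : ∀ f ∈ S, t' f = t f) :
    TA R t' (insert e S) ↔ TA R t S ∧
      (∀ f ∈ S, R (e, t' e) (f, t f) ∧ R (e, !t' e) (f, !t f)) ∧ ¬ R (e, t' e) (e, !t' e) := by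
  constructor
  · rintro ⟨h1, h2⟩
    refine ⟨⟨?_, ?_⟩, ?_, ?_⟩
    · intro f hf g hg
      have := h1 f (Finset.mem_insert_of_mem hf) g (Finset.mem_insert_of_mem hg)
      rwa [ht f hf, ht g hg] at this
    · intro f hf
      have := h2 f (Finset.mem_insert_of_mem hf)
      rwa [ht f hf] at this
    · intro f hf
      have := h1 e (Finset.mem_insert_self e S) f (Finset.mem_insert_of_mem hf)
      rwa [ht f hf] at this
    · exact h2 e (Finset.mem_insert_self e S)
  · rintro ⟨⟨h1, h2⟩, h3, h4⟩
    refine ⟨?_, ?_⟩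
    · intro f hf g hg
      rw [Finset.mem_insert] at hf hg
      rcases hf with rfl | hf <;> rcases hg with rfl | hg
      · exact ⟨hR.refl _, hR.refl _⟩
      · rw [ht g hg]
        exact h3 g hg
      · rw [ht f hf]
        exact ⟨hR.symm (h3 f hf).1, hR.symm (h3 f hf).2⟩
      · rw [ht f hf, ht g hg]
        exact h1 f hf g hg
    · intro f hf
      rw [Finset.mem_insert] at hf
      rcases hf with rfl | hf
      · exact h4
      · rw [ht f hf]
        exact h2 f hf

omit [DecidableEq A] in
theorem TC_iff {R : A × Bool → A × Bool → Prop} {R1 : A → A × Bool → A × Bool → Prop}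
    {s : Bool} {kind : A → Bool} {t : A → Bool} {S : Finset A} :
    TC s kind R R1 t S ↔
      (∀ e ∈ S, ∀ f ∈ S, R (e, t e) (f, t f) ∧ R (e, t e) (f, !t f)) ∧
      (∃ e ∈ S, kind e = true) ∧ (∃ e ∈ S, kind e = false) ∧
      ∀ e ∈ S, ∀ f ∈ S, kind e ≠ kind f →
        R1 e (f, t f) (e, sn s (t e)) ∧ R1 e (f, !t f) (e, !sn s (t e)) := by
  unfold TC sn
  cases s <;> simp

theorem TC_two {R : A × Bool → A × Bool → Prop} {R1 : A → A × Bool → A × Bool → Prop}
    {s : Bool} {kind : A → Bool} {t : A → Bool} {S : Finset A} (h : TC s kind R R1 t S) (b : Bool) :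
    ∃ f ∈ S, kind f = b := by
  rw [TC_iff] at h
  cases b
  · exact h.2.2.1
  · exact h.2.1

theorem TC_pt {R : A × Bool → A × Bool → Prop} (hR : Equivalence R)
    {R1 : A → A × Bool → A × Bool → Prop}
    {s : Bool} {kind : A → Bool} {t : A → Bool} {S : Finset A} (h : TC s kind R R1 t S) {f g : A}
    (hf : f ∈ S) (hg : g ∈ S) (a b : Bool) : R (f, a) (g, b) := by
  rw [TC_iff] at h
  have h1 := h.1 f hf f hf
  have h2 := h.1 f hf g hg
  have k1 : R (f, a) (f, t f) := by
    by_cases hab : a = t f
    · rw [hab]; exact hR.refl _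
    · have : a = !t f := by
        cases a <;> cases htf : t f <;> simp_all
      rw [this]; exact hR.symm h1.2
  have k2 : R (f, t f) (g, b) := by
    by_cases hab : b = t g
    · rw [hab]; exact h2.1
    · have : b = !t g := by
        cases b <;> cases htg : t g <;> simp_all
      rw [this]; exact h2.2
  exact hR.trans k1 k2

theorem TC_int {R : A × Bool → A × Bool → Prop} {R1 : A → A × Bool → A × Bool → Prop}
    {s : Bool} {kind : A → Bool} {t : A → Bool} {S : Finset A} (h : TC s kind R R1 t S) {f g : A}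
    (hf : f ∈ S) (hg : g ∈ S) (hk : kind f ≠ kind g) :
    R1 f (g, t g) (f, sn s (t f)) ∧ R1 f (g, !t g) (f, !sn s (t f)) := by
  rw [TC_iff] at h
  exact h.2.2.2 f hf g hg hk

theorem TC_J {R : A × Bool → A × Bool → Prop} {R1 : A → A × Bool → A × Bool → Prop}
    {s : Bool} {kind : A → Bool} {S : Finset A} {e : A} (hR : Equivalence R)
    {t t' : A → Bool} (ht : ∀ f ∈ S, t' f = t f)
    (h : TC s kind R R1 t' (insert e S)) (h2 : ∀ b, ∃ f ∈ S, kind f = b) : TC s kind R R1 t S := by
  rw [TC_iff]
  refine ⟨?_, h2 true, h2 false, ?_⟩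
  · intro f hf g hg
    exact ⟨TC_pt hR h (Finset.mem_insert_of_mem hf) (Finset.mem_insert_of_mem hg) _ _,
      TC_pt hR h (Finset.mem_insert_of_mem hf) (Finset.mem_insert_of_mem hg) _ _⟩
  · intro f hf g hg hk
    have := TC_int h (Finset.mem_insert_of_mem hf) (Finset.mem_insert_of_mem hg) hk
    rwa [ht f hf, ht g hg] at this

theorem ft_self (t : A → Bool) (e : A) : ft t e e = !t e := by simp [ft]

theorem ft_of_mem (t : A → Bool) {e : A} {S : Finset A} (he : e ∉ S) :
    ∀ f ∈ S, ft t e f = t f := by
  intro f hf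
  have : f ≠ e := fun h => he (h ▸ hf)
  simp [ft, this]

section cases

variable {S : Finset A} {e : A} {R : Finset A → A × Bool → A × Bool → Prop} {m : Finset A → ℤ}
  {kind : A → Bool} {s : Bool} {t : A → Bool}

/-- crossings of different kinds in type C are interlaced -/
theorem TC_not (F : Fam (insert e S) R m) {K : Finset A} (hK : K ⊆ insert e S)
    (hSK : ∀ f ∈ S, f ∉ K) (h : TC s kind (R K) (fun f => R (insert f K)) t S) {f g : A}
    (hf : f ∈ S) (hg : g ∈ S) (hk : kind f ≠ kind g) :
    ¬ R (insert f K) (g, true) (g, false) := by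
  intro hn
  have h1 := TC_int h hf hg hk
  have h2 : R K (f, true) (f, false) := TC_pt (F.eqv K) h hf hf _ _
  have h3 := F.split_not hK (Finset.mem_insert_of_mem hf) (hSK f hf) h2
  apply h3
  rw [← F.pm (sn s (t f))]
  exact F.trans (F.symm h1.1) (F.trans (F.pm' hn (t g) (!t g)) h1.2)

theorem TC_hi (F : Fam (insert e S) R m)
    (h : TC s kind (R ∅) (fun f => R (insert f ∅)) t S) : m S = m ∅ + 2 := by
  obtain ⟨f, hf, kf⟩ := TC_two h true
  obtain ⟨g, hg, kg⟩ := TC_two h false
  have hk : kind f ≠ kind g := by rw [kf, kg]; simp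
  have h1 := TC_not F (Finset.empty_subset _) (fun _ _ => Finset.notMem_empty _) h hf hg hk
  have hfg : g ∉ insert f (∅ : Finset A) := by
    intro h'
    simp only [Finset.mem_insert, Finset.notMem_empty, or_false] at h'
    exact hk (by rw [h'])
  have h2 : m (insert f ∅) = m ∅ := F.split_m (Finset.empty_subset _)
    (Finset.mem_insert_of_mem hf) (Finset.notMem_empty _) (TC_pt (F.eqv ∅) h hf hf _ _)
  have h3 : m (insert g (insert f ∅)) = m (insert f ∅) + 2 :=
    F.merge_m (Finset.insert_subset (Finset.mem_insert_of_mem hf) (Finset.empty_subset _))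
      (Finset.mem_insert_of_mem hg) hfg h1
  refine F.hi_mono (K := insert g (insert f ∅)) ?_ (Finset.subset_insert e S) ?_
  · exact Finset.insert_subset hg (Finset.insert_subset hf (Finset.empty_subset _))
  · rw [h3, h2]

theorem case1 (F : Fam (insert e S) R m) (he : e ∉ S) (hne : S.Nonempty)
    (h1 : ¬ R ∅ (e, true) (e, false)) :
    Xor (TT s kind R ∅ (insert e S) (ft t e)) (TT s kind R ∅ (insert e S) t) ↔
      Xor (R S (e, true) (e, false) ∧ TT s kind R ∅ S t)
        (R ∅ (e, true) (e, false) ∧ TT s kind R (insert e ∅) S t) := by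
  have hE : ∅ ⊆ insert e S := Finset.empty_subset _
  have heJ : e ∈ insert e S := Finset.mem_insert_self e S
  have nC : ∀ t' : A → Bool,
      ¬ TC s kind (R ∅) (fun f => R (insert f ∅)) t' (insert e S) := by
    intro t' h
    exact h1 (TC_pt (F.eqv ∅) h heJ heJ _ _)
  have nC2 : ¬ TC s kind (R ∅) (fun f => R (insert f ∅)) t S := by
    intro h
    obtain ⟨f, hf, kf⟩ := TC_two h true
    obtain ⟨g, hg, kg⟩ := TC_two h false
    have hk : kind f ≠ kind g := by rw [kf, kg]; simp
    have hfJ : f ∈ insert e S := Finset.mem_insert_of_mem hf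
    have hgJ : g ∈ insert e S := Finset.mem_insert_of_mem hg
    have h2 := TC_not F hE (fun _ _ => Finset.notMem_empty _) h hf hg hk
    have hfg : g ∉ insert f (∅ : Finset A) := by
      intro h'
      simp only [Finset.mem_insert, Finset.notMem_empty, or_false] at h'
      exact hk (by rw [h'])
    have hff : R ∅ (f, true) (f, false) := TC_pt (F.eqv ∅) h hf hf _ _
    have h3 : m (insert f ∅) = m ∅ := F.split_m hE hfJ (Finset.notMem_empty _) hff
    have hfK : insert f ∅ ⊆ insert e S := Finset.insert_subset hfJ hE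
    have h4 : m (insert g (insert f ∅)) = m (insert f ∅) + 2 := F.merge_m hfK hgJ hfg h2
    have hek : e ∉ insert g (insert f (∅ : Finset A)) := by
      intro h'
      simp only [Finset.mem_insert, Finset.notMem_empty, or_false] at h'
      rcases h' with rfl | rfl
      · exact he hg
      · exact he hf
    have h5 := F.hi_split (K := insert g (insert f ∅)) (Finset.insert_subset hgJ hfK)
      (by rw [h4, h3]) heJ hek
    have le0 : ∀ {x y}, R (insert f ∅) x y → R ∅ x y := fun h =>
      F.split_le hE hfJ (Finset.notMem_empty _) hff h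
    apply h1
    by_cases h6 : R (insert f ∅) (e, true) (e, false)
    · exact le0 h6
    · rcases F.merge_cases hfK hgJ hfg h2 h5 h6 true with h7 | h7
      · exact F.trans (le0 h7.1) (F.trans (TC_pt (F.eqv ∅) h hg hg _ _) (F.symm (le0 h7.2)))
      · exact F.trans (le0 h7.1) (F.trans (TC_pt (F.eqv ∅) h hg hg _ _) (F.symm (le0 h7.2)))
  unfold TT
  simp only [nC, nC2, h1, or_false, false_and]
  rw [TA_J (F.eqv ∅) he (ft_of_mem t he), TA_J (F.eqv ∅) he (fun _ _ => rfl), ft_self]
  by_cases hA : TA (R ∅) t S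
  · obtain ⟨f, hf⟩ := hne
    have hfJ : f ∈ insert e S := Finset.mem_insert_of_mem hf
    have h2 : ¬ R ∅ (f, true) (f, false) := fun h' => hA.2 f hf ((F.pm _).2 h')
    have h3 : m (insert f ∅) = m ∅ + 2 := F.merge_m hE hfJ (Finset.notMem_empty _) h2
    have hfK : insert f ∅ ⊆ insert e S := Finset.insert_subset hfJ hE
    have hef : e ∉ insert f (∅ : Finset A) := by
      intro h'
      simp only [Finset.mem_insert, Finset.notMem_empty, or_false] at h'
      exact he (h' ▸ hf)
    have h4 := F.hi_split hfK h3 heJ hef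
    have hS : R S (e, true) (e, false) := by
      apply F.hi_split (Finset.subset_insert e S) ?_ heJ he
      exact F.hi_mono (K := insert f ∅) (Finset.insert_subset hf (Finset.empty_subset _))
        (Finset.subset_insert e S) h3
    have h5 := F.merge_cases hE hfJ (Finset.notMem_empty _) h2 (F.pm' h4 (t e) (!t e))
      (fun h' => h1 ((F.pm _).1 h')) (t f)
    have h6 : ∀ b, ¬ R ∅ (e, b) (e, !b) := fun b h' => h1 ((F.pm _).1 h')
    have key : ∀ b : Bool, (R ∅ (e, b) (f, t f) ∧ R ∅ (e, !b) (f, !t f)) →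
        (∀ g ∈ S, R ∅ (e, b) (g, t g) ∧ R ∅ (e, !b) (g, !t g)) ∧
        ¬ (∀ g ∈ S, R ∅ (e, !b) (g, t g) ∧ R ∅ (e, !!b) (g, !t g)) := by
      intro b hb
      refine ⟨fun g hg => ⟨F.trans hb.1 (hA.1 f hf g hg).1, F.trans hb.2 (hA.1 f hf g hg).2⟩, ?_⟩
      intro h'
      exact h6 b (F.trans hb.1 (F.symm (h' f hf).1))
    have h7 : R S (e, true) (e, false) ∧ TA (R ∅) t S := ⟨hS, hA⟩
    have h8 : Xor (R S (e, true) (e, false) ∧ TA (R ∅) t S) False := by
      rw [xor_def]; exact Or.inl ⟨h7, not_false⟩
    refine iff_of_true ?_ h8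
    rcases h5 with h5 | h5
    · obtain ⟨k1, k2⟩ := key (t e) h5
      rw [xor_def]
      right
      exact ⟨⟨hA, k1, h6 _⟩, fun h' => k2 h'.2.1⟩
    · have h5' : R ∅ (e, !t e) (f, t f) ∧ R ∅ (e, !!t e) (f, !t f) := by
        rw [Bool.not_not]; exact ⟨h5.2, h5.1⟩
      obtain ⟨k1, k2⟩ := key (!t e) h5'
      rw [xor_def]
      left
      refine ⟨⟨hA, k1, h6 _⟩, fun h' => k2 ?_⟩
      rw [Bool.not_not]
      exact h'.2.1
  · rw [xor_def, xor_def]
    simp only [hA, false_and, and_false, not_false_eq_true, or_self]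

theorem ne_mem {f : A} (he : e ∉ S) (hf : f ∈ S) : f ∉ insert e (∅ : Finset A) := by
  intro h'
  simp only [Finset.mem_insert, Finset.notMem_empty, or_false] at h'
  exact he (h' ▸ hf)

theorem ne_mem' {f : A} (he : e ∉ S) (hf : f ∈ S) : e ∉ insert f (∅ : Finset A) := by
  intro h'
  simp only [Finset.mem_insert, Finset.notMem_empty, or_false] at h'
  exact he (h' ▸ hf)

theorem sub1 (f : A) (hf : f ∈ insert e S) : insert f ∅ ⊆ insert e S :=
  Finset.insert_subset hf (Finset.empty_subset _)

theorem case2 (F : Fam (insert e S) R m) (he : e ∉ S)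
    (h1 : R ∅ (e, true) (e, false)) {f : A} (hf : f ∈ S) (h2 : ¬ R ∅ (f, true) (f, false)) :
    Xor (TT s kind R ∅ (insert e S) (ft t e)) (TT s kind R ∅ (insert e S) t) ↔
      Xor (R S (e, true) (e, false) ∧ TT s kind R ∅ S t)
        (R ∅ (e, true) (e, false) ∧ TT s kind R (insert e ∅) S t) := by
  have hE : ∅ ⊆ insert e S := Finset.empty_subset _
  have heJ : e ∈ insert e S := Finset.mem_insert_self e S
  have hfJ : f ∈ insert e S := Finset.mem_insert_of_mem hf
  have nC : ∀ t' : A → Bool,
      ¬ TC s kind (R ∅) (fun f => R (insert f ∅)) t' (insert e S) := by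
    intro t' h
    exact h2 (TC_pt (F.eqv ∅) h hfJ hfJ _ _)
  have nA : ∀ t' : A → Bool, ¬ TA (R ∅) t' (insert e S) := by
    intro t' h
    exact h.2 e heJ ((F.pm _).2 h1)
  have nC2 : ¬ TC s kind (R ∅) (fun f => R (insert f ∅)) t S := by
    intro h
    exact h2 (TC_pt (F.eqv ∅) h hf hf _ _)
  have le0 : ∀ {x y}, R (insert e ∅) x y → R ∅ x y := fun h =>
    F.split_le hE heJ (Finset.notMem_empty _) h1 h
  have nC3 : ¬ TC s kind (R (insert e ∅)) (fun f => R (insert f (insert e ∅))) t S := by
    intro h
    exact h2 (le0 (TC_pt (F.eqv _) h hf hf _ _))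
  have h3 : m (insert f ∅) = m ∅ + 2 := F.merge_m hE hfJ (Finset.notMem_empty _) h2
  have hS : R S (e, true) (e, false) := by
    apply F.hi_split (Finset.subset_insert e S) ?_ heJ he
    exact F.hi_mono (K := insert f ∅) (Finset.insert_subset hf (Finset.empty_subset _))
      (Finset.subset_insert e S) h3
  unfold TT
  simp only [nC, nC2, nC3, nA, h1, hS, or_false, true_and]
  have key : TA (R ∅) t S ↔ TA (R (insert e ∅)) t S := by
    constructor
    · intro hA
      have hnn : ∀ g ∈ S, ¬ R ∅ (g, true) (g, false) := fun g hg h' => hA.2 g hg ((F.pm _).2 h')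
      have hw : ∀ g ∈ S, R (insert e ∅) (g, t g) (f, t f) ∧ R (insert e ∅) (g, !t g) (f, !t f) := by
        intro g hg
        by_cases hgf : g = f
        · subst hgf; exact ⟨F.refl _, F.refl _⟩
        have hgJ : g ∈ insert e S := Finset.mem_insert_of_mem hg
        have hKe : insert e ∅ ⊆ insert e S := sub1 e heJ
        have h4 : ¬ R (insert e ∅) (f, true) (f, false) := fun h' => h2 (le0 h')
        have h5 : m (insert f (insert e ∅)) = m (insert e ∅) + 2 :=
          F.merge_m hKe hfJ (ne_mem he hf) h4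
        have h6 : m (insert e ∅) = m ∅ := F.split_m hE heJ (Finset.notMem_empty _) h1
        have hgK : g ∉ insert f (insert e (∅ : Finset A)) := by
          intro h'
          rw [Finset.mem_insert] at h'
          rcases h' with h' | h'
          · exact hgf h'
          · exact ne_mem he hg h'
        have h7 := F.hi_split (K := insert f (insert e ∅)) (Finset.insert_subset hfJ hKe)
          (by rw [h5, h6]) hgJ hgK
        rcases F.merge_cases hKe hfJ (ne_mem he hf) h4 (F.pm' h7 (t g) (!t g))
          (fun h' => hnn g hg (le0 ((F.pm _).1 h'))) (t f) with h8 | h8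
        · exact h8
        · exfalso
          apply hnn f hf
          rw [← F.pm (t f)]
          exact F.trans (F.symm (hA.1 g hg f hf).1) (le0 h8.1)
      refine ⟨fun g hg k hk => ⟨F.trans (hw g hg).1 (F.symm (hw k hk).1),
        F.trans (hw g hg).2 (F.symm (hw k hk).2)⟩, fun g hg h' => hA.2 g hg (le0 h')⟩
    · intro hA
      refine ⟨fun g hg k hk => ⟨le0 (hA.1 g hg k hk).1, le0 (hA.1 g hg k hk).2⟩, ?_⟩
      intro g hg h'
      apply h2
      rw [← F.pm (t f)]
      exact F.trans (le0 (hA.1 f hf g hg).1) (F.trans h' (F.symm (le0 (hA.1 f hf g hg).2)))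
  by_cases hA : TA (R ∅) t S
  · have hB := key.1 hA
    simp only [hA, hB]
    rw [xor_def, xor_def]; simp
  · have hB : ¬ TA (R (insert e ∅)) t S := fun h => hA (key.2 h)
    simp only [hA, hB]

/-- the sign of an interlaced pair is symmetric -/
theorem sgn' (F : Fam (insert e S) R m)
    (sg : ∀ f ∈ insert e S, ∀ g ∈ insert e S, kind f ≠ kind g → R ∅ (f, true) (f, false) →
      R ∅ (g, true) (g, false) → ¬ R (insert f ∅) (g, true) (g, false) →
      (R (insert f ∅) (g, true) (f, true) ↔ R (insert g ∅) (f, true) (g, true)))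
    {f g : A} (hf : f ∈ insert e S) (hg : g ∈ insert e S) (hk : kind f ≠ kind g)
    (h1 : R ∅ (f, true) (f, false)) (h2 : R ∅ (g, true) (g, false))
    (h3 : ¬ R (insert f ∅) (g, true) (g, false)) (a b : Bool) :
    R (insert f ∅) (g, a) (f, b) ↔ R (insert g ∅) (f, b) (g, a) := by
  have hE : ∅ ⊆ insert e S := Finset.empty_subset _
  have h4 := sg f hf g hg hk h1 h2 h3
  have hgf : g ∉ insert f (∅ : Finset A) := by
    intro h'
    simp only [Finset.mem_insert, Finset.notMem_empty, or_false] at h'
    exact hk (by rw [h'])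
  have hfg : f ∉ insert g (∅ : Finset A) := by
    intro h'
    simp only [Finset.mem_insert, Finset.notMem_empty, or_false] at h'
    exact hk (by rw [h'])
  have h5 : m (insert g (insert f ∅)) = m (insert f ∅) + 2 := F.merge_m (sub1 f hf) hg hgf h3
  have h6 : m (insert f ∅) = m ∅ := F.split_m hE hf (Finset.notMem_empty _) h1
  have h7 : m (insert g ∅) = m ∅ := F.split_m hE hg (Finset.notMem_empty _) h2
  have h8 : ¬ R (insert g ∅) (f, true) (f, false) := by
    intro h'
    have h9 : m (insert f (insert g ∅)) = m (insert g ∅) := F.split_m (sub1 g hg) hf hfg h'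
    rw [Finset.insert_comm] at h9
    rw [h9, h7, h6] at h5
    linarith
  have n1 := F.split_not hE hf (Finset.notMem_empty _) h1
  have n2 := F.split_not hE hg (Finset.notMem_empty _) h2
  have d1 := F.dir_or hE hf (Finset.notMem_empty _) h1 h2 h3 true true
  have d2 := F.dir_or hE hg (Finset.notMem_empty _) h2 h1 h8 true true
  simp only [Bool.not_true] at d1 d2
  by_cases hc : R (insert f ∅) (g, true) (f, true)
  · have hc' := h4.1 hc
    have e1 : R (insert f ∅) (g, false) (f, false) := by
      rcases d1 with d | d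
      · exact d.2
      · exact absurd (F.trans (F.symm hc) d.1) n1
    have e2 : R (insert g ∅) (f, false) (g, false) := by
      rcases d2 with d | d
      · exact d.2
      · exact absurd (F.trans (F.symm hc') d.1) n2
    cases a <;> cases b
    · exact iff_of_true e1 e2
    · exact iff_of_false (fun h => n1 (F.trans (F.symm h) e1)) (fun h => n2 (F.trans (F.symm hc') h))
    · exact iff_of_false (fun h => n1 (F.trans (F.symm hc) h))
        (fun h => n2 (F.trans (F.symm h) e2))
    · exact iff_of_true hc hc'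
  · have hc' : ¬ R (insert g ∅) (f, true) (g, true) := fun h => hc (h4.2 h)
    have e1 : R (insert f ∅) (g, true) (f, false) ∧ R (insert f ∅) (g, false) (f, true) := by
      rcases d1 with d | d
      · exact absurd d.1 hc
      · exact d
    have e2 : R (insert g ∅) (f, true) (g, false) ∧ R (insert g ∅) (f, false) (g, true) := by
      rcases d2 with d | d
      · exact absurd d.1 hc'
      · exact d
    cases a <;> cases b
    · exact iff_of_false (fun h => n1 (F.trans (F.symm e1.2) h)) (fun h => n2 (F.trans (F.symm e2.2) h))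
    · exact iff_of_true e1.2 e2.1
    · exact iff_of_true e1.1 e2.2
    · exact iff_of_false hc hc'

theorem pair_ne {f g : A} (hk : kind f ≠ kind g) : g ∉ insert f (∅ : Finset A) := by
  intro h'
  simp only [Finset.mem_insert, Finset.notMem_empty, or_false] at h'
  exact hk (by rw [h'])

theorem case3a (F : Fam (insert e S) R m) (he : e ∉ S) (hne : S.Nonempty)
    (h0 : ∀ f ∈ insert e S, R ∅ (f, true) (f, false))
    (h2 : ∀ f ∈ S, R (insert e ∅) (f, true) (f, false)) :
    Xor (TT s kind R ∅ (insert e S) (ft t e)) (TT s kind R ∅ (insert e S) t) ↔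
      Xor (R S (e, true) (e, false) ∧ TT s kind R ∅ S t)
        (R ∅ (e, true) (e, false) ∧ TT s kind R (insert e ∅) S t) := by
  have hE : ∅ ⊆ insert e S := Finset.empty_subset _
  have heJ : e ∈ insert e S := Finset.mem_insert_self e S
  have h1 := h0 e heJ
  have hmem : ∀ f ∈ S, f ∈ insert e S := fun f hf => Finset.mem_insert_of_mem hf
  obtain ⟨f0, hf0⟩ := hne
  have nA : ∀ t' : A → Bool, ¬ TA (R ∅) t' (insert e S) := by
    intro t' h
    exact h.2 e heJ ((F.pm _).2 h1)
  have nA1 : ¬ TA (R ∅) t S := by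
    intro h
    exact h.2 f0 hf0 ((F.pm _).2 (h0 f0 (hmem f0 hf0)))
  have nA2 : ¬ TA (R (insert e ∅)) t S := by
    intro h
    exact h.2 f0 hf0 ((F.pm _).2 (h2 f0 hf0))
  have nC : ∀ t' : A → Bool,
      ¬ TC s kind (R ∅) (fun f => R (insert f ∅)) t' (insert e S) := by
    intro t' h
    obtain ⟨g, hg, kg⟩ := TC_two h (!kind e)
    have hk : kind e ≠ kind g := by rw [kg]; cases kind e <;> simp
    have hgS : g ∈ S := by
      rw [Finset.mem_insert] at hg
      rcases hg with rfl | hg
      · exact absurd rfl hk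
      · exact hg
    have h3 := TC_int h heJ hg hk
    apply F.split_not hE heJ (Finset.notMem_empty _) h1
    rw [← F.pm (sn s (t' e))]
    exact F.trans (F.symm h3.1) (F.trans (F.pm' (h2 g hgS) (t' g) (!t' g)) h3.2)
  have le0 : ∀ {x y}, R (insert e ∅) x y → R ∅ x y := fun h =>
    F.split_le hE heJ (Finset.notMem_empty _) h1 h
  have me : m (insert e ∅) = m ∅ := F.split_m hE heJ (Finset.notMem_empty _) h1
  have mf : ∀ f ∈ S, m (insert f ∅) = m ∅ := fun f hf =>
    F.split_m hE (hmem f hf) (Finset.notMem_empty _) (h0 f (hmem f hf))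
  have mef : ∀ f ∈ S, m (insert f (insert e ∅)) = m ∅ := fun f hf => by
    rw [F.split_m (sub1 e heJ) (hmem f hf) (ne_mem he hf) (h2 f hf), me]
  -- `e` splits at `{f}`
  have esp : ∀ f ∈ S, R (insert f ∅) (e, true) (e, false) := by
    intro f hf
    by_contra hn
    have h3 := F.merge_m (sub1 f (hmem f hf)) heJ (ne_mem' he hf) hn
    rw [Finset.insert_comm, mef f hf, mf f hf] at h3
    linarith
  have lef : ∀ f ∈ S, ∀ {x y}, R (insert f (insert e ∅)) x y → R (insert f ∅) x y := by
    intro f hf x y hxy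
    rw [Finset.insert_comm] at hxy
    exact F.split_le (sub1 f (hmem f hf)) heJ (ne_mem' he hf) (esp f hf) hxy
  have key : TC s kind (R ∅) (fun f => R (insert f ∅)) t S ↔
      TC s kind (R (insert e ∅)) (fun f => R (insert f (insert e ∅))) t S := by
    constructor
    · intro hC
      have hint : ∀ f ∈ S, ∀ g ∈ S, kind f ≠ kind g →
          R (insert f (insert e ∅)) (g, t g) (f, sn s (t f)) ∧
          R (insert f (insert e ∅)) (g, !t g) (f, !sn s (t f)) := by
        intro f hf g hg hk
        have h3 := TC_not F hE (fun _ _ => Finset.notMem_empty _) hC hf hg hk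
        have h4 : m (insert g (insert f ∅)) = m (insert f ∅) + 2 :=
          F.merge_m (sub1 f (hmem f hf)) (hmem g hg) (pair_ne hk) h3
        have hK : insert f (insert e ∅) ⊆ insert e S :=
          Finset.insert_subset (hmem f hf) (sub1 e heJ)
        have hgK : g ∉ insert f (insert e (∅ : Finset A)) := by
          intro h'
          rw [Finset.mem_insert] at h'
          rcases h' with h' | h'
          · exact hk (by rw [h'])
          · exact ne_mem he hg h'
        have h5 : ¬ R (insert f (insert e ∅)) (g, true) (g, false) := by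
          intro h'
          have h6 := F.split_m hK (hmem g hg) hgK h'
          have h7 : m (insert g (insert f ∅)) ≤ m (insert g (insert f (insert e ∅))) := by
            apply F.mono
            · apply Finset.insert_subset_insert
              apply Finset.insert_subset_insert
              exact Finset.empty_subset _
            · exact Finset.insert_subset (hmem g hg) hK
          rw [h6, h4, mef f hf, mf f hf] at h7
          linarith
        rcases F.split_cases (sub1 e heJ) (hmem f hf) (ne_mem he hf) (h2 f hf)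
          (F.pm' (h2 g hg) (t g) (!t g)) (fun h' => h5 ((F.pm _).1 h')) (sn s (t f)) with h6 | h6
        · exact h6
        · exfalso
          apply F.split_not hE (hmem f hf) (Finset.notMem_empty _) (h0 f (hmem f hf))
          rw [← F.pm (sn s (t f))]
          exact F.trans (F.symm (TC_int hC hf hg hk).1) (lef f hf h6.1)
      have lee : ∀ f ∈ S, ∀ {x y}, R (insert f (insert e ∅)) x y → R (insert e ∅) x y := by
        intro f hf x y hxy
        exact F.split_le (sub1 e heJ) (hmem f hf) (ne_mem he hf) (h2 f hf) hxy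
      have hd : ∀ f ∈ S, ∀ g ∈ S, kind f ≠ kind g → ∀ a b, R (insert e ∅) (f, a) (g, b) := by
        intro f hf g hg hk a b
        have h3 := lee f hf (hint f hf g hg hk).1
        exact F.trans (F.pm' (h2 f hf) a (sn s (t f))) (F.trans (F.symm h3) (F.pm' (h2 g hg) _ _))
      have ha : ∀ f ∈ S, ∀ g ∈ S, ∀ a b, R (insert e ∅) (f, a) (g, b) := by
        intro f hf g hg a b
        by_cases hk : kind f = kind g
        · obtain ⟨k, hkS, kk⟩ := TC_two hC (!kind f)
          have hk1 : kind f ≠ kind k := by rw [kk]; cases kind f <;> simp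
          have hk2 : kind k ≠ kind g := by rw [← hk]; exact hk1.symm
          exact F.trans (hd f hf k hkS hk1 a true) (hd k hkS g hg hk2 true b)
        · exact hd f hf g hg hk a b
      rw [TC_iff]
      exact ⟨fun f hf g hg => ⟨ha f hf g hg _ _, ha f hf g hg _ _⟩, TC_two hC true, TC_two hC false,
        fun f hf g hg hk => hint f hf g hg hk⟩
    · intro hC
      rw [TC_iff]
      refine ⟨fun f hf g hg => ⟨le0 (TC_pt (F.eqv _) hC hf hg _ _),
        le0 (TC_pt (F.eqv _) hC hf hg _ _)⟩, TC_two hC true, TC_two hC false, ?_⟩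
      intro f hf g hg hk
      have h3 := TC_int hC hf hg hk
      exact ⟨lef f hf h3.1, lef f hf h3.2⟩
  have hS : TC s kind (R ∅) (fun f => R (insert f ∅)) t S → R S (e, true) (e, false) := fun hC =>
    F.hi_split (Finset.subset_insert e S) (TC_hi F hC) heJ he
  unfold TT
  simp only [nC, nA, nA1, nA2, h1, false_or, true_and]
  by_cases hC : TC s kind (R ∅) (fun f => R (insert f ∅)) t S
  · have hB := key.1 hC
    simp only [hC, hB, hS hC]
    rw [xor_def, xor_def]; simp
  · have hB : ¬ TC s kind (R (insert e ∅)) (fun f => R (insert f (insert e ∅))) t S :=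
      fun h => hC (key.2 h)
    simp only [hC, hB, and_false]

theorem mkTC (F : Fam (insert e S) R m)
    (sg : ∀ f ∈ insert e S, ∀ g ∈ insert e S, kind f ≠ kind g → R ∅ (f, true) (f, false) →
      R ∅ (g, true) (g, false) → ¬ R (insert f ∅) (g, true) (g, false) →
      (R (insert f ∅) (g, true) (f, true) ↔ R (insert g ∅) (f, true) (g, true)))
    (h0 : ∀ f ∈ insert e S, R ∅ (f, true) (f, false)) {g0 : A} (hg0 : g0 ∈ S)
    (kg0 : kind g0 ≠ kind e)
    {t t' : A → Bool} (ht : ∀ f ∈ S, t' f = t f)
    (hone : ∀ f ∈ S, ∀ g ∈ S, ∀ a b, R ∅ (f, a) (g, b))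
    (hint : ∀ f ∈ S, ∀ g ∈ S, kind f ≠ kind g →
      R (insert f ∅) (g, t g) (f, sn s (t f)) ∧ R (insert f ∅) (g, !t g) (f, !sn s (t f)))
    (hD : ∀ g ∈ S, kind g ≠ kind e → R (insert e ∅) (g, t g) (e, sn s (t' e)) ∧
      R (insert e ∅) (g, !t g) (e, !sn s (t' e))) :
    TC s kind (R ∅) (fun f => R (insert f ∅)) t' (insert e S) := by
  have hE : ∅ ⊆ insert e S := Finset.empty_subset _
  have heJ : e ∈ insert e S := Finset.mem_insert_self e S
  have h1 := h0 e heJ
  have hmem : ∀ f ∈ S, f ∈ insert e S := fun f hf => Finset.mem_insert_of_mem hf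
  have le0 : ∀ {x y}, R (insert e ∅) x y → R ∅ x y := fun h =>
    F.split_le hE heJ (Finset.notMem_empty _) h1 h
  have n1 := F.split_not hE heJ (Finset.notMem_empty _) h1
  -- ends of `e`
  have he' : ∀ g ∈ S, ∀ a b, R ∅ (g, a) (e, b) := by
    intro g hg a b
    exact F.trans (hone g hg g0 hg0 a (t g0)) (F.trans (le0 (hD g0 hg0 kg0).1) (F.pm' h1 _ b))
  have hone' : ∀ f ∈ insert e S, ∀ g ∈ insert e S, ∀ a b, R ∅ (f, a) (g, b) := by
    intro f hf g hg a b
    rw [Finset.mem_insert] at hf hg
    rcases hf with rfl | hf <;> rcases hg with rfl | hg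
    · exact F.pm' h1 a b
    · exact F.symm (he' g hg b a)
    · exact he' f hf a b
    · exact hone f hf g hg a b
  have hk2 : ∀ b, ∃ f ∈ insert e S, kind f = b := by
    intro b
    by_cases hb : kind e = b
    · exact ⟨e, heJ, hb⟩
    · refine ⟨g0, hmem g0 hg0, ?_⟩
      cases b <;> cases h : kind e <;> cases h' : kind g0 <;> simp_all
  rw [TC_iff]
  refine ⟨fun f hf g hg => ⟨hone' f hf g hg _ _, hone' f hf g hg _ _⟩, hk2 true, hk2 false, ?_⟩
  intro f hf g hg hk
  rw [Finset.mem_insert] at hf hg
  rcases hf with rfl | hf <;> rcases hg with rfl | hg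
  · exact absurd rfl hk
  · rw [ht g hg]
    exact hD g hg hk.symm
  · rw [ht f hf]
    have h3 := hD f hf hk
    have h4 : ¬ R (insert g ∅) (f, true) (f, false) := by
      intro h'
      apply n1
      rw [← F.pm (sn s (t' g))]
      exact F.trans (F.symm h3.1) (F.trans (F.pm' h' (t f) (!t f)) h3.2)
    have h5 := fun a b => sgn' F sg heJ (hmem f hf) hk.symm h1 (h0 f (hmem f hf)) h4 a b
    show R (insert f ∅) (g, t' g) (f, sn s (t f)) ∧ R (insert f ∅) (g, !t' g) (f, !sn s (t f))
    rw [← h5, ← h5]
    cases s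
    · simp only [sn, Bool.false_eq_true, if_false, Bool.not_not] at h3 ⊢
      exact ⟨h3.2, h3.1⟩
    · simp only [sn, if_true] at h3 ⊢
      exact h3
  · rw [ht f hf, ht g hg]
    exact hint f hf g hg hk

theorem sn_not (s b : Bool) : sn s (!b) = !sn s b := by
  cases s <;> cases b <;> rfl

theorem case3b (F : Fam (insert e S) R m) (he : e ∉ S)
    (pl : ∀ f ∈ insert e S, ∀ g ∈ insert e S, f ≠ g → R ∅ (f, true) (f, false) →
      R ∅ (g, true) (g, false) → ¬ R (insert f ∅) (g, true) (g, false) → kind f ≠ kind g)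
    (sg : ∀ f ∈ insert e S, ∀ g ∈ insert e S, kind f ≠ kind g → R ∅ (f, true) (f, false) →
      R ∅ (g, true) (g, false) → ¬ R (insert f ∅) (g, true) (g, false) →
      (R (insert f ∅) (g, true) (f, true) ↔ R (insert g ∅) (f, true) (g, true)))
    (h0 : ∀ f ∈ insert e S, R ∅ (f, true) (f, false)) {g0 : A} (hg0 : g0 ∈ S)
    (h2 : ¬ R (insert e ∅) (g0, true) (g0, false)) :
    Xor (TT s kind R ∅ (insert e S) (ft t e)) (TT s kind R ∅ (insert e S) t) ↔
      Xor (R S (e, true) (e, false) ∧ TT s kind R ∅ S t)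
        (R ∅ (e, true) (e, false) ∧ TT s kind R (insert e ∅) S t) := by
  have hE : ∅ ⊆ insert e S := Finset.empty_subset _
  have heJ : e ∈ insert e S := Finset.mem_insert_self e S
  have h1 := h0 e heJ
  have hmem : ∀ f ∈ S, f ∈ insert e S := fun f hf => Finset.mem_insert_of_mem hf
  have hne : ∀ f ∈ S, e ≠ f := fun f hf h => he (h ▸ hf)
  have n1 := F.split_not hE heJ (Finset.notMem_empty _) h1
  have le0 : ∀ {x y}, R (insert e ∅) x y → R ∅ x y := fun h =>
    F.split_le hE heJ (Finset.notMem_empty _) h1 h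
  have kg0 : kind e ≠ kind g0 := pl e heJ g0 (hmem g0 hg0) (hne g0 hg0) h1 (h0 g0 (hmem g0 hg0)) h2
  have nA : ∀ t' : A → Bool, ¬ TA (R ∅) t' (insert e S) := by
    intro t' h
    exact h.2 e heJ ((F.pm _).2 h1)
  have nA1 : ¬ TA (R ∅) t S := by
    intro h
    exact h.2 g0 hg0 ((F.pm _).2 (h0 g0 (hmem g0 hg0)))
  have nC3 : ¬ TC s kind (R (insert e ∅)) (fun f => R (insert f (insert e ∅))) t S := by
    intro h
    exact h2 (TC_pt (F.eqv _) h hg0 hg0 _ _)
  -- the direction condition
  set D : Bool → Prop := fun c => ∀ g ∈ S, kind g ≠ kind e → R (insert e ∅) (g, t g) (e, c) ∧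
      R (insert e ∅) (g, !t g) (e, !c) with hDdef
  have hTCD : ∀ t' : A → Bool, (∀ f ∈ S, t' f = t f) →
      TC s kind (R ∅) (fun f => R (insert f ∅)) t' (insert e S) → D (sn s (t' e)) := by
    intro t' ht h g hg hk
    have := TC_int h heJ (hmem g hg) hk.symm
    rwa [ht g hg] at this
  have hDD : ∀ c, D c → ¬ D (!c) := by
    intro c hc hc'
    apply n1
    rw [← F.pm c]
    exact F.trans (F.symm (hc g0 hg0 kg0.symm).1) (hc' g0 hg0 kg0.symm).1
  have hdir := F.dir_or hE heJ (Finset.notMem_empty _) h1 (h0 g0 (hmem g0 hg0)) h2 (t g0)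
    (sn s (t e))
  unfold TT
  simp only [nC3, nA, nA1, h1, false_or, true_and, or_false]
  by_cases hall : ∀ f ∈ S, ¬ R (insert e ∅) (f, true) (f, false)
  · -- all interlaced with `e`
    have hkind : ∀ f ∈ S, kind f ≠ kind e := fun f hf =>
      (pl e heJ f (hmem f hf) (hne f hf) h1 (h0 f (hmem f hf)) (hall f hf)).symm
    have nC1 : ¬ TC s kind (R ∅) (fun f => R (insert f ∅)) t S := by
      intro h
      obtain ⟨f, hf, kf⟩ := TC_two h (kind e)
      exact hkind f hf kf
    have hone : ∀ f ∈ S, ∀ g ∈ S, ∀ a b, R ∅ (f, a) (g, b) := by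
      have h3 : ∀ f ∈ S, ∀ a, R ∅ (f, a) (e, true) := by
        intro f hf a
        rcases F.dir_or hE heJ (Finset.notMem_empty _) h1 (h0 f (hmem f hf)) (hall f hf) a true
          with h4 | h4
        · exact le0 h4.1
        · exact F.trans (le0 h4.1) (F.pm' h1 _ _)
      intro f hf g hg a b
      exact F.trans (h3 f hf a) (F.symm (h3 g hg b))
    have hTCD' : ∀ t' : A → Bool, (∀ f ∈ S, t' f = t f) →
        (TC s kind (R ∅) (fun f => R (insert f ∅)) t' (insert e S) ↔ D (sn s (t' e))) := by
      intro t' ht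
      refine ⟨hTCD t' ht, fun hD => mkTC F sg h0 hg0 kg0.symm ht hone ?_ hD⟩
      intro f hf g hg hk
      exfalso
      have k1 := hkind f hf
      have k2 := hkind g hg
      cases h : kind e <;> cases h' : kind f <;> cases h'' : kind g <;> simp_all
    rw [hTCD' _ (ft_of_mem t he), hTCD' _ (fun _ _ => rfl), ft_self, sn_not]
    simp only [nC1, and_false]
    have hAD : TA (R (insert e ∅)) t S ↔ (D (sn s (t e)) ∨ D (!sn s (t e))) := by
      constructor
      · intro hA
        rcases hdir with hd | hd
        · left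
          intro g hg _
          exact ⟨F.trans (hA.1 g hg g0 hg0).1 hd.1, F.trans (hA.1 g hg g0 hg0).2 hd.2⟩
        · right
          intro g hg _
          rw [Bool.not_not]
          exact ⟨F.trans (hA.1 g hg g0 hg0).1 hd.1, F.trans (hA.1 g hg g0 hg0).2 hd.2⟩
      · intro h
        have : ∃ c, D c := by
          rcases h with h | h
          · exact ⟨_, h⟩
          · exact ⟨_, h⟩
        obtain ⟨c, hc⟩ := this
        refine ⟨fun f hf g hg => ⟨F.trans (hc f hf (hkind f hf)).1 (F.symm (hc g hg (hkind g hg)).1),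
          F.trans (hc f hf (hkind f hf)).2 (F.symm (hc g hg (hkind g hg)).2)⟩, ?_⟩
        intro f hf h'
        exact hall f hf ((F.pm _).1 h')
    rw [hAD]
    have h5 := hDD (sn s (t e))
    rw [xor_def, xor_def]
    tauto
  · -- some crossing is not interlaced with `e`
    push Not at hall
    obtain ⟨f0, hf0, hf1⟩ := hall
    have nA2 : ¬ TA (R (insert e ∅)) t S := by
      intro h
      exact h.2 f0 hf0 ((F.pm _).2 hf1)
    simp only [nA2]
    by_cases hC : TC s kind (R ∅) (fun f => R (insert f ∅)) t S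
    · have hS : R S (e, true) (e, false) :=
        F.hi_split (Finset.subset_insert e S) (TC_hi F hC) heJ he
      obtain ⟨f', hf', kf'⟩ := TC_two hC (kind e)
      have hf'J := hmem f' hf'
      -- `f'` splits at `{e}`
      have h3 : R (insert e ∅) (f', true) (f', false) := by
        by_contra hn
        exact pl e heJ f' hf'J (hne f' hf') h1 (h0 f' hf'J) hn kf'.symm
      have me : m (insert e ∅) = m ∅ := F.split_m hE heJ (Finset.notMem_empty _) h1
      have mf : m (insert f' ∅) = m ∅ := F.split_m hE hf'J (Finset.notMem_empty _) (h0 f' hf'J)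
      have mK : m (insert f' (insert e ∅)) = m ∅ := by
        rw [F.split_m (sub1 e heJ) hf'J (ne_mem he hf') h3, me]
      have hKJ : insert f' (insert e ∅) ⊆ insert e S := Finset.insert_subset hf'J (sub1 e heJ)
      have esp : R (insert f' ∅) (e, true) (e, false) := by
        by_contra hn
        have h4 := F.merge_m (sub1 f' hf'J) heJ (ne_mem' he hf') hn
        rw [Finset.insert_comm, mK, mf] at h4
        linarith
      have leK : ∀ {x y}, R (insert f' (insert e ∅)) x y → R (insert f' ∅) x y := by
        intro x y hxy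
        rw [Finset.insert_comm] at hxy
        exact F.split_le (sub1 f' hf'J) heJ (ne_mem' he hf') esp hxy
      have leE : ∀ {x y}, R (insert f' (insert e ∅)) x y → R (insert e ∅) x y := fun h =>
        F.split_le (sub1 e heJ) hf'J (ne_mem he hf') h3 h
      have nf' := F.split_not hE hf'J (Finset.notMem_empty _) (h0 f' hf'J)
      have hgK : ∀ g ∈ S, kind g ≠ kind e → g ∉ insert f' (insert e (∅ : Finset A)) := by
        intro g hg hk h'
        rw [Finset.mem_insert] at h'
        rcases h' with h' | h'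
        · exact hk (by rw [h', kf'])
        · exact ne_mem he hg h'
      have hnK : ∀ g ∈ S, kind g ≠ kind e →
          ¬ R (insert f' (insert e ∅)) (g, true) (g, false) := by
        intro g hg hk h'
        have hk' : kind f' ≠ kind g := by rw [kf']; exact hk.symm
        have h4 := TC_not F hE (fun _ _ => Finset.notMem_empty _) hC hf' hg hk'
        exact h4 (leK h')
      have hag : ∀ h ∈ S, kind h ≠ kind e →
          R (insert e ∅) (h, t h) (g0, t g0) ∧ R (insert e ∅) (h, !t h) (g0, !t g0) := by
        intro h hh hk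
        by_cases hhg : h = g0
        · subst hhg; exact ⟨F.refl _, F.refl _⟩
        have k0 : kind f' ≠ kind g0 := by rw [kf']; exact kg0
        have k1 : kind f' ≠ kind h := by rw [kf']; exact hk.symm
        have h4 := hnK g0 hg0 kg0.symm
        have h5 : m (insert g0 (insert f' (insert e ∅))) = m ∅ + 2 := by
          rw [F.merge_m hKJ (hmem g0 hg0) (hgK g0 hg0 kg0.symm) h4, mK]
        have h6 : h ∉ insert g0 (insert f' (insert e (∅ : Finset A))) := by
          intro h'
          rw [Finset.mem_insert] at h'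
          rcases h' with h' | h'
          · exact hhg h'
          · exact hgK h hh hk h'
        have h7 := F.hi_split (K := insert g0 (insert f' (insert e ∅)))
          (Finset.insert_subset (hmem g0 hg0) hKJ) h5 (hmem h hh) h6
        have h8 := TC_int hC hf' hh k1
        have h9 := TC_int hC hf' hg0 k0
        rcases F.merge_cases hKJ (hmem g0 hg0) (hgK g0 hg0 kg0.symm) h4 (F.pm' h7 (t h) (!t h))
          (fun h' => hnK h hh hk ((F.pm _).1 h')) (t g0) with h10 | h10
        · exact ⟨leE h10.1, leE h10.2⟩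
        · exfalso
          apply nf'
          rw [← F.pm (sn s (t f'))]
          exact F.trans (F.symm h8.1) (F.trans (leK h10.1) h9.2)
      have hone : ∀ f ∈ S, ∀ g ∈ S, ∀ a b, R ∅ (f, a) (g, b) :=
        fun f hf g hg a b => TC_pt (F.eqv _) hC hf hg a b
      have hint : ∀ f ∈ S, ∀ g ∈ S, kind f ≠ kind g →
          R (insert f ∅) (g, t g) (f, sn s (t f)) ∧ R (insert f ∅) (g, !t g) (f, !sn s (t f)) :=
        fun f hf g hg hk => TC_int hC hf hg hk
      have hTCD' : ∀ t' : A → Bool, (∀ f ∈ S, t' f = t f) →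
          (TC s kind (R ∅) (fun f => R (insert f ∅)) t' (insert e S) ↔ D (sn s (t' e))) := by
        intro t' ht
        exact ⟨hTCD t' ht, fun hD => mkTC F sg h0 hg0 kg0.symm ht hone hint hD⟩
      rw [hTCD' _ (ft_of_mem t he), hTCD' _ (fun _ _ => rfl), ft_self, sn_not]
      have hDor : D (sn s (t e)) ∨ D (!sn s (t e)) := by
        rcases hdir with hd | hd
        · left
          intro g hg hk
          exact ⟨F.trans (hag g hg hk).1 hd.1, F.trans (hag g hg hk).2 hd.2⟩
        · right
          intro g hg hk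
          rw [Bool.not_not]
          exact ⟨F.trans (hag g hg hk).1 hd.1, F.trans (hag g hg hk).2 hd.2⟩
      have h5 := hDD (sn s (t e))
      simp only [hC, hS]
      rw [xor_def, xor_def]
      tauto
    · have hk0 : ∀ t' : A → Bool, (∀ f ∈ S, t' f = t f) →
          ¬ TC s kind (R ∅) (fun f => R (insert f ∅)) t' (insert e S) := by
        intro t' ht h
        apply hC
        have kf0 : kind f0 = kind e := by
          by_contra hk
          have h3 := hTCD t' ht h f0 hf0 hk
          apply n1
          rw [← F.pm (sn s (t' e))]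
          exact F.trans (F.symm h3.1) (F.trans (F.pm' hf1 (t f0) (!t f0)) h3.2)
        refine TC_J (F.eqv _) ht h ?_
        intro b
        by_cases hb : kind e = b
        · exact ⟨f0, hf0, kf0.trans hb⟩
        · refine ⟨g0, hg0, ?_⟩
          cases b <;> cases h : kind e <;> cases h' : kind g0 <;> simp_all
      simp only [hC, hk0 _ (ft_of_mem t he), hk0 t (fun _ _ => rfl), and_false]

end cases

theorem gam : S_GAM := by
  intro A _ kind S e R m s t he hne heq hmg hsp pl sg hd
  have F : Fam (insert e S) R m := ⟨heq, hmg, hsp, hd⟩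
  simp only [← insert_empty_eq] at pl sg ⊢
  by_cases h1 : R ∅ (e, true) (e, false)
  · by_cases h2 : ∀ f ∈ S, R ∅ (f, true) (f, false)
    · have h0 : ∀ f ∈ insert e S, R ∅ (f, true) (f, false) := by
        intro f hf
        rw [Finset.mem_insert] at hf
        rcases hf with rfl | hf
        · exact h1
        · exact h2 f hf
      by_cases h3 : ∀ f ∈ S, R (insert e ∅) (f, true) (f, false)
      · exact case3a F he hne h0 h3
      · push Not at h3
        obtain ⟨g0, hg0, h4⟩ := h3
        exact case3b F he pl sg h0 hg0 h4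
    · push Not at h2
      obtain ⟨f, hf, h3⟩ := h2
      exact case2 F he h1 hf h3
  · exact case1 F he hne h1

end Pool.Agent.Y284.SZ
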