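import Pool.Agent.Y465.SZ.Stm2

/-!
Project Y465-SZ, job JOR: if all cycles mod 2 bound then all states are planar.
-/

namespace Pool.Agent.Y284.SZ.JOR

open Pool.Agent.Y465.SZ

variable {E : Type} [Fintype E] [DecidableEq E] {mate : E × Fin 4 → E × Fin 4}

/-- indicator of a circle -/
noncomputable def cl (mate : E × Fin 4 → E × Fin 4) (K : Finset E) (p h : E × Fin 4) : Bool :=
  open Classical in decide (Same mate K p h)

theorem cl_iff {K : Finset E} {p h : E × Fin 4} : cl mate K p h = true ↔ Same mate K p h := by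
  unfold cl
  simp

theorem cl_inv (K : Finset E) (p : E × Fin 4) : Inv mate K (cl mate K p) := by
  classical
  have := inv_class (mate := mate) K p
  unfold cl
  convert this

theorem cl_self (K : Finset E) (p : E × Fin 4) : cl mate K p p = true := cl_iff.2 (Same.refl K p)

theorem cl_false {K : Finset E} {p h : E × Fin 4} (hn : ¬ Same mate K p h) :
    cl mate K p h = false := by
  rw [← Bool.not_eq_true, cl_iff]
  exact hn

theorem even {K : Finset E} {Z : E × Fin 4 → Bool} (h : Inv mate K Z) (e : E) :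
    ((Z (e, 0) ^^ Z (e, 1)) ^^ (Z (e, 2) ^^ Z (e, 3))) = false := by
  by_cases he : e ∈ K
  · obtain ⟨h1, h2⟩ := h.slots_mem he
    rw [h1, h2]
    cases Z (e, 0) <;> cases Z (e, 2) <;> rfl
  · obtain ⟨h1, h2⟩ := h.slots_not_mem he
    rw [h1, h2]
    cases Z (e, 0) <;> cases Z (e, 2) <;> rfl

/-- equations of the colouring at one crossing -/
theorem cz {Z c : E × Fin 4 → Bool} (h : ∀ e i, Z (e, i) = (c (e, i) ^^ c (e, i - 1))) (e : E) :
    Z (e, 0) = (c (e, 0) ^^ c (e, 3)) ∧ Z (e, 1) = (c (e, 1) ^^ c (e, 0)) ∧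
    Z (e, 2) = (c (e, 2) ^^ c (e, 1)) ∧ Z (e, 3) = (c (e, 3) ^^ c (e, 2)) :=
  ⟨h e 0, h e 1, h e 2, h e 3⟩

theorem locA {K : Finset E} {Z c col : E × Fin 4 → Bool} (hZ : Inv mate K Z)
    (h : ∀ e i, Z (e, i) = (c (e, i) ^^ c (e, i - 1))) {g : E} {v gam : Bool}
    (h0 : Z (g, 0) = true) (h2 : Z (g, 2) = false) (hv : c (g, 2) = v)
    (hg : (c (g, 0) ^^ col (g, 0)) = gam) : (col (g, 0) ^^ decide (g ∈ K)) = (gam ^^ v) := by
  obtain ⟨k0, k1, k2, k3⟩ := cz h g
  by_cases he : g ∈ K
  · obtain ⟨h1, h2⟩ := hZ.slots_mem he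
    subst hv hg
    cases hc0 : c (g, 0) <;> cases hc1 : c (g, 1) <;> cases hc2 : c (g, 2) <;>
      cases hc3 : c (g, 3) <;> cases hcc : col (g, 0) <;> simp_all
  · obtain ⟨h1, h2⟩ := hZ.slots_not_mem he
    subst hv hg
    cases hc0 : c (g, 0) <;> cases hc1 : c (g, 1) <;> cases hc2 : c (g, 2) <;>
      cases hc3 : c (g, 3) <;> cases hcc : col (g, 0) <;> simp_all

theorem locB {K : Finset E} {Z c col : E × Fin 4 → Bool} (hZ : Inv mate K Z)
    (h : ∀ e i, Z (e, i) = (c (e, i) ^^ c (e, i - 1))) {g : E} {v gam : Bool}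
    (h0 : Z (g, 2) = true) (h2 : Z (g, 0) = false) (hv : c (g, 0) = v)
    (hg : (c (g, 2) ^^ col (g, 2)) = gam) (hcol : col (g, 2) = col (g, 0)) :
    (col (g, 0) ^^ decide (g ∈ K)) = (gam ^^ v) := by
  obtain ⟨k0, k1, k2, k3⟩ := cz h g
  by_cases he : g ∈ K
  · obtain ⟨h1, h2⟩ := hZ.slots_mem he
    subst hv hg
    rw [hcol]
    cases hc0 : c (g, 0) <;> cases hc1 : c (g, 1) <;> cases hc2 : c (g, 2) <;>
      cases hc3 : c (g, 3) <;> cases hcc : col (g, 0) <;> simp_all
  · obtain ⟨h1, h2⟩ := hZ.slots_not_mem he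
    subst hv hg
    rw [hcol]
    cases hc0 : c (g, 0) <;> cases hc1 : c (g, 1) <;> cases hc2 : c (g, 2) <;>
      cases hc3 : c (g, 3) <;> cases hcc : col (g, 0) <;> simp_all

/-- the colouring is constant outside of the cycle along the circles -/
theorem invF {K : Finset E} {Z c : E × Fin 4 → Bool} (hZ : Inv mate K Z)
    (h1 : ∀ h, c ((mate h).1, (mate h).2 - 1) = c h)
    (h : ∀ e i, Z (e, i) = (c (e, i) ^^ c (e, i - 1))) :
    Inv mate K (fun p => c p && !Z p) := by
  rw [inv_iff]
  refine ⟨?_, ?_⟩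
  · intro p
    have a1 := hZ.1 p
    have a2 := h (mate p).1 (mate p).2
    have a3 := h1 p
    rw [a3] at a2
    change Z (mate p) = (c (mate p) ^^ c p) at a2
    cases hz : Z p <;> cases hc : c p <;> cases hcm : c (mate p) <;> simp_all
  · intro e
    obtain ⟨k0, k1, k2, k3⟩ := cz h e
    constructor
    · intro he
      obtain ⟨b1, b2⟩ := hZ.slots_mem he
      constructor
      · rw [b1] at k1 ⊢
        cases hz : Z (e, 0) <;> cases hc0 : c (e, 0) <;> cases hc1 : c (e, 1) <;> simp_all
      · rw [b2] at k3 ⊢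
        cases hz : Z (e, 2) <;> cases hc0 : c (e, 2) <;> cases hc1 : c (e, 3) <;> simp_all
    · intro he
      obtain ⟨b1, b2⟩ := hZ.slots_not_mem he
      constructor
      · rw [b1]
        cases hz : Z (e, 0) <;> cases hc0 : c (e, 0) <;> cases hc1 : c (e, 3) <;> simp_all
      · rw [b2]
        cases hz : Z (e, 2) <;> cases hc0 : c (e, 2) <;> cases hc1 : c (e, 1) <;> simp_all

/-- on the cycle the two colourings change at the same time -/
theorem invG {K : Finset E} {Z c col : E × Fin 4 → Bool} (hZ : Inv mate K Z)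
    (h1 : ∀ h, c ((mate h).1, (mate h).2 - 1) = c h)
    (h : ∀ e i, Z (e, i) = (c (e, i) ^^ c (e, i - 1)))
    (cm : ∀ h, col (mate h) = !col h) (ca : ∀ e i, col (e, i + 1) = !col (e, i)) :
    Inv mate K (fun p => (c p ^^ col p) && Z p) := by
  rw [inv_iff]
  refine ⟨?_, ?_⟩
  · intro p
    have a1 := hZ.1 p
    have a2 := h (mate p).1 (mate p).2
    have a3 := h1 p
    have a4 := cm p
    rw [a3] at a2
    change Z (mate p) = (c (mate p) ^^ c p) at a2
    cases hz : Z p <;> cases hc : c p <;> cases hcm : c (mate p) <;> cases hco : col p <;>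
      simp_all
  · intro e
    obtain ⟨k0, k1, k2, k3⟩ := cz h e
    have c0 : col (e, 1) = !col (e, 0) := ca e 0
    have c1 : col (e, 2) = !col (e, 1) := ca e 1
    have c2 : col (e, 3) = !col (e, 2) := ca e 2
    rw [c0, Bool.not_not] at c1
    rw [c1] at c2
    constructor
    · intro he
      obtain ⟨b1, b2⟩ := hZ.slots_mem he
      constructor
      · rw [b1, c0] 
        rw [b1] at k1
        cases hz : Z (e, 0) <;> cases hc0 : c (e, 0) <;> cases hc1 : c (e, 1) <;>
          cases hco : col (e, 0) <;> simp_all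
      · rw [b2, c2, c1]
        rw [b2] at k3
        cases hz : Z (e, 2) <;> cases hc0 : c (e, 2) <;> cases hc1 : c (e, 3) <;>
          cases hco : col (e, 0) <;> simp_all
    · intro he
      obtain ⟨b1, b2⟩ := hZ.slots_not_mem he
      constructor
      · rw [b1, c2]
        cases hz : Z (e, 0) <;> cases hc0 : c (e, 0) <;> cases hc1 : c (e, 3) <;>
          cases hco : col (e, 0) <;> simp_all
      · rw [b2, c0, c1]
        cases hz : Z (e, 2) <;> cases hc0 : c (e, 2) <;> cases hc1 : c (e, 1) <;>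
          cases hco : col (e, 0) <;> simp_all

theorem pl {col : E × Fin 4 → Bool} (O : Ori mate) (hJ : Jor mate)
    (cm : ∀ h, col (mate h) = !col h) (ca : ∀ e i, col (e, i + 1) = !col (e, i))
    (K : Finset E) (e f : E) (hef : e ≠ f) (he : Same mate K (e, 0) (e, 2))
    (hf : Same mate K (f, 0) (f, 2)) (hn : ¬ Same mate (tog K e) (f, 0) (f, 2)) :
    (col (e, 0) ^^ decide (e ∈ K)) ≠ (col (f, 0) ^^ decide (f ∈ K)) := by
  set K' := tog K e with hK'
  have hee : ¬ Same mate K' (e, 0) (e, 2) := fun h => (O K e).1 h he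
  -- a labelling invariant for `K'` with equal values at the ends of `e` is invariant for `K`
  have hdiff : ∀ g, (g ∈ K' ↔ ¬ g ∈ K) → g = e := by
    intro g hg
    by_contra hge
    have h1 : g ∈ K' ↔ g ∈ K := by
      rw [hK']
      unfold tog
      split_ifs with h
      · rw [Finset.mem_erase]; exact ⟨fun h => h.2, fun h => ⟨hge, h⟩⟩
      · rw [Finset.mem_insert]; exact ⟨fun h => h.resolve_left hge, fun h => Or.inr h⟩
    tauto
  have hinv : ∀ u, Inv mate K' u → u (e, 0) = u (e, 2) → Inv mate K u := by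
    intro u hu h
    apply inv_congr hu
    intro g hg
    rw [hdiff g hg]; exact h
  have iZ := cl_inv (mate := mate) K' (f, 0)
  have iZ2 := cl_inv (mate := mate) K' (f, 2)
  set Z := cl mate K' (f, 0) with hZ
  set Z2 := cl mate K' (f, 2) with hZ2
  have zf0 : Z (f, 0) = true := cl_self _ _
  have zf2 : Z (f, 2) = false := cl_false hn
  have yf2 : Z2 (f, 2) = true := cl_self _ _
  have yf0 : Z2 (f, 0) = false := cl_false (fun h => hn h.symm)
  have ze : Z (e, 0) ≠ Z (e, 2) := by
    intro h
    have := hf Z (hinv Z iZ h)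
    rw [zf0, zf2] at this
    exact absurd this (by simp)
  have ye : Z2 (e, 0) ≠ Z2 (e, 2) := by
    intro h
    have := hf Z2 (hinv Z2 iZ2 h)
    rw [yf0, yf2] at this
    exact absurd this (by simp)
  have disj : ∀ p, Z p = true → Z2 p = true → False := by
    intro p h1 h2
    exact hn ((cl_iff.1 h1).trans (cl_iff.1 h2).symm)
  obtain ⟨c, hc1, hc2⟩ := hJ Z iZ.1 (even iZ)
  have hF := invF iZ hc1 hc2
  have hG := invG iZ hc1 hc2 cm ca
  have colf : (col (f, 0) ^^ decide (f ∈ K')) = ((c (f, 0) ^^ col (f, 0)) ^^ c (f, 2)) :=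
    locA iZ hc2 zf0 zf2 rfl rfl
  have cole : (col (e, 0) ^^ decide (e ∈ K')) = ((c (f, 0) ^^ col (f, 0)) ^^ c (f, 2)) := by
    cases h0 : Z (e, 0)
    · have h2 : Z (e, 2) = true := by
        cases h : Z (e, 2)
        · exact absurd (h0.trans h.symm) ze
        · rfl
      have y2 : Z2 (e, 2) = false := by
        cases h : Z2 (e, 2)
        · rfl
        · exact absurd (disj _ h2 h) id
      have y0 : Z2 (e, 0) = true := by
        cases h : Z2 (e, 0)
        · exact absurd (h.trans y2.symm) ye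
        · rfl
      have hv : c (e, 0) = c (f, 2) := by
        have := cl_iff.1 y0 _ hF
        simp only [zf2, h0, Bool.not_false, Bool.and_true] at this
        exact this.symm
      have hg : (c (e, 2) ^^ col (e, 2)) = (c (f, 0) ^^ col (f, 0)) := by
        have := cl_iff.1 h2 _ hG
        simp only [zf0, h2, Bool.and_true] at this
        exact this.symm
      have hcol : col (e, 2) = col (e, 0) := by
        have c0 : col (e, 1) = !col (e, 0) := ca e 0
        have c1 : col (e, 2) = !col (e, 1) := ca e 1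
        rw [c1, c0, Bool.not_not]
      exact locB iZ hc2 h2 h0 hv hg hcol
    · have h2 : Z (e, 2) = false := by
        cases h : Z (e, 2)
        · rfl
        · exact absurd (h0.trans h.symm) ze
      have y0 : Z2 (e, 0) = false := by
        cases h : Z2 (e, 0)
        · rfl
        · exact absurd (disj _ h0 h) id
      have y2 : Z2 (e, 2) = true := by
        cases h : Z2 (e, 2)
        · exact absurd (y0.trans h.symm) ye
        · rfl
      have hv : c (e, 2) = c (f, 2) := by
        have := cl_iff.1 y2 _ hF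
        simp only [zf2, h2, Bool.not_false, Bool.and_true] at this
        exact this.symm
      have hg : (c (e, 0) ^^ col (e, 0)) = (c (f, 0) ^^ col (f, 0)) := by
        have := cl_iff.1 h0 _ hG
        simp only [zf0, h0, Bool.and_true] at this
        exact this.symm
      exact locA iZ hc2 h0 h2 hv hg
  have m1 : decide (e ∈ K') = !decide (e ∈ K) := by
    rw [hK']
    unfold tog
    by_cases h : e ∈ K <;> simp [h]
  have m2 : decide (f ∈ K') = decide (f ∈ K) := by
    rw [hK']
    unfold tog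
    by_cases h : e ∈ K <;> simp [h, hef.symm]
  rw [m1] at cole
  rw [m2] at colf
  rw [colf, ← cole]
  cases col (e, 0) <;> cases decide (e ∈ K) <;> simp

theorem jor : S_JOR := by
  intro hO _ E _ _ mate mm hJ
  obtain ⟨col, h1, h2⟩ := hJ (fun _ => true) (fun _ => rfl) (fun _ => rfl)
  have ca : ∀ e i, col (e, i + 1) = !col (e, i) := by
    intro e i
    have := h2 e (i + 1)
    rw [add_sub_cancel_right] at this
    revert this
    cases col (e, i) <;> cases col (e, i + 1) <;> decide
  have cm : ∀ h, col (mate h) = !col h := by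
    intro h
    have a2 := h2 (mate h).1 (mate h).2
    rw [h1 h] at a2
    change true = (col (mate h) ^^ col h) at a2
    revert a2
    cases col h <;> cases col (mate h) <;> decide
  have O : Ori mate := hO E mate col mm cm ca
  exact ⟨col, mm, cm, ca, fun K e f => pl O hJ cm ca K e f⟩

end Pool.Agent.Y284.SZ.JOR
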