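import Pool.Agent.Y465.SZ.Stm
import Pool.Agent.Y284.SZ.GAM

/-!
Project Y465-SZ, job P2B: the square of `L_0 + delta` at entries where all crossings are full.
-/

namespace Pool.Agent.Y284.SZ.P2B

open Pool.Agent.Y465.SZ

variable {E : Type} [Fintype E] [DecidableEq E] {mate : E × Fin 4 → E × Fin 4}

/-- indicator of a circle -/
noncomputable def cl (mate : E × Fin 4 → E × Fin 4) (K : Finset E) (p h : E × Fin 4) : Bool :=
  open Classical in decide (Same mate K p h)

theorem cl_iff {K : Finset E} {p h : E × Fin 4} : cl mate K p h = true ↔ Same mate K p h := by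
  unfold cl
  simp

theorem cl_inv (K : Finset E) (p : E × Fin 4) : Inv mate K (cl mate K p) := by
  classical
  have := inv_class (mate := mate) K p
  unfold cl
  convert this

theorem cl_self (K : Finset E) (p : E × Fin 4) : cl mate K p p = true := cl_iff.2 (Same.refl K p)

theorem zc_w (W : WTF mate) {K : Finset E} {f0 : E × Fin 4 → Bool} (h0 : Inv mate K f0)
    {p : E × Fin 4} (hp : f0 p = false) :
    wt mate K (fun h => f0 h || cl mate K p h) = wt mate K f0 + 2 := by
  have h1 : Inv mate K (fun h => f0 h || cl mate K p h) := h0.or (cl_inv K p)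
  have h2 := W.lab K f0 _ h0 h1 (fun h hh => by simp [hh])
  have h3 : cn mate K (fun h => (f0 h || cl mate K p h) && !f0 h) = 1 := by
    rw [W.cn1 K _ (h1.and h0.not)]
    constructor
    · exact ⟨p, by simp [hp, cl_self]⟩
    · intro h h' ha hb
      simp only [Bool.and_eq_true, Bool.or_eq_true, Bool.not_eq_true'] at ha hb
      obtain ⟨ha1, ha2⟩ := ha
      obtain ⟨hb1, hb2⟩ := hb
      rw [ha2] at ha1
      rw [hb2] at hb1
      simp only [Bool.false_eq_true, false_or] at ha1 hb1
      exact (cl_iff.1 ha1).symm.trans (cl_iff.1 hb1)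
  rw [h2, h3]
  simp

theorem zc_unique (W : WTF mate) {K : Finset E} {f0 f1 : E × Fin 4 → Bool} (h0 : Inv mate K f0)
    (h1 : Inv mate K f1) (hle : ∀ h, f0 h = true → f1 h = true)
    (hw : wt mate K f1 = wt mate K f0 + 2)
    {p : E × Fin 4} (hp : f0 p = false) (hp' : f1 p = true) :
    f1 = fun h => f0 h || cl mate K p h := by
  have h2 := W.lab K f0 f1 h0 h1 hle
  have h3 : cn mate K (fun h => f1 h && !f0 h) = 1 := by
    have : (cn mate K (fun h => f1 h && !f0 h) : ℤ) = 1 := by linarith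
    exact_mod_cast this
  rw [W.cn1 K _ (h1.and h0.not)] at h3
  funext h
  cases hf : f0 h
  · simp only [Bool.false_or]
    rw [Bool.eq_iff_iff, cl_iff]
    constructor
    · intro hh
      exact h3.2 p h (by simp [hp, hp']) (by simp [hf, hh])
    · intro hh
      rw [← hh f1 h1, hp']
  · simp [hle h hf]

theorem cardu {α : Type*} [Fintype α] (P : α → Prop) [DecidablePred P] (z0 : α)
    (h : ∀ z, P z → z = z0) :
    ((Finset.univ.filter P).card : ZMod 2) = if P z0 then 1 else 0 := by
  split_ifs with h0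
  · have : Finset.univ.filter P = {z0} := by
      ext z
      simp only [Finset.mem_filter, Finset.mem_univ, true_and, Finset.mem_singleton]
      exact ⟨h z, fun hz => hz ▸ h0⟩
    rw [this]; simp
  · have : Finset.univ.filter P = ∅ := by
      ext z
      simp only [Finset.mem_filter, Finset.mem_univ, true_and, Finset.notMem_empty, iff_false]
      intro hz
      exact h0 (h z hz ▸ hz)
    rw [this]; simp

theorem card0 {α : Type*} [Fintype α] (P : α → Prop) [DecidablePred P]
    (h : ∀ z, ¬ P z) :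
    ((Finset.univ.filter P).card : ZMod 2) = 0 := by
  have : Finset.univ.filter P = ∅ := by
    ext z
    simp [h z]
  rw [this]; simp

/-- the relation of `L_0` -/
def pL (t : E → Bool) (x y : Cfg mate) : Prop := LP t x y ∧ y.w = x.w + 2

/-- the relation of `delta` -/
def pD (col : E × Fin 4 → Bool) (s : Bool) (t : E → Bool) (x y : Cfg mate) : Prop :=
  (x.f = y.f ∧ x.K ⊆ y.K ∧ (y.K \ x.K).Nonempty ∧ y.w = x.w + 2) ∧
    (((∀ e ∈ y.K \ x.K, x.f (e, 0) = false ∧ x.f (e, 2) = false) ∧
        (TA (fun p q => Same mate x.K (pt p) (pt q)) t (y.K \ x.K) ∨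
         TC s (fun e => col (e, 0)) (fun p q => Same mate x.K (pt p) (pt q))
           (fun e p q => Same mate (insert e x.K) (pt p) (pt q)) t (y.K \ x.K))) ∨
     ((∀ e ∈ y.K \ x.K, x.f (e, 0) = true ∧ x.f (e, 2) = true) ∧
        (TA (fun p q => Same mate y.K (pt p) (pt q)) t (y.K \ x.K) ∨
         TC s (fun e => col (e, 0)) (fun p q => Same mate y.K (pt p) (pt q))
           (fun e p q => Same mate (y.K.erase e) (pt p) (pt q)) t (y.K \ x.K))))

theorem L0_eq (t : E → Bool) : (L0 t : Op mate) = ind (pL t) := rfl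

theorem dl_eq (col : E × Fin 4 → Bool) (s : Bool) (t : E → Bool) :
    (dl col s t : Op mate) = ind (pD col s t) := rfl

/-- the situation of the job -/
structure Ctx (x y : Cfg mate) : Prop where
  W : WTF mate
  hK : x.K ⊆ y.K
  hf : ∀ h, x.f h = true → y.f h = true
  full : ∀ e ∈ y.K \ x.K, x.f (e, 0) = false ∧ y.f (e, 0) = true ∧ x.f (e, 2) = false ∧
      y.f (e, 2) = true
  hw : y.w = x.w + 4
  hne : x.f ≠ y.f

namespace Ctx

variable {x y : Cfg mate}

theorem full_pt (C : Ctx x y) {e : E} (he : e ∈ y.K \ x.K) (b : Bool) :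
    x.f (pt (e, b)) = false ∧ y.f (pt (e, b)) = true := by
  obtain ⟨h1, h2, h3, h4⟩ := C.full e he
  cases b
  · exact ⟨h1, h2⟩
  · exact ⟨h3, h4⟩

theorem invx (C : Ctx x y) {K : Finset E} (h1 : x.K ⊆ K) (h2 : K ⊆ y.K) : Inv mate K x.f := by
  apply inv_congr x.inv
  intro e he
  by_cases hx : e ∈ x.K
  · exact absurd (h1 hx) (he.1 hx)
  · have hK : e ∈ K := by
      by_contra hn
      exact hx (he.2 hn)
    obtain ⟨k1, k2, k3, k4⟩ := C.full e (Finset.mem_sdiff.2 ⟨h2 hK, hx⟩)
    rw [k1, k3]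

theorem invy (C : Ctx x y) {K : Finset E} (h1 : x.K ⊆ K) (h2 : K ⊆ y.K) : Inv mate K y.f := by
  apply inv_congr y.inv
  intro e he
  by_cases hK : e ∈ K
  · exact absurd hK (he.1 (h2 hK))
  · have hy : e ∈ y.K := he.2 hK
    obtain ⟨k1, k2, k3, k4⟩ := C.full e (Finset.mem_sdiff.2 ⟨hy, fun hx => hK (h1 hx)⟩)
    rw [k2, k4]

end Ctx

/-- number of circles of the difference of the labels -/
noncomputable def c (x y : Cfg mate) (K : Finset E) : ℕ := cn mate K (fun h => y.f h && !x.f h)

namespace Ctx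

variable {x y : Cfg mate}

theorem wty (C : Ctx x y) {K : Finset E} (h1 : x.K ⊆ K) (h2 : K ⊆ y.K) :
    wt mate K y.f = wt mate K x.f + 2 * (c x y K : ℤ) :=
  C.W.lab K x.f y.f (C.invx h1 h2) (C.invy h1 h2) C.hf

theorem invZ (C : Ctx x y) {K : Finset E} (h1 : x.K ⊆ K) (h2 : K ⊆ y.K) :
    Inv mate K (fun h => y.f h && !x.f h) := (C.invy h1 h2).and (C.invx h1 h2).not

theorem exZ (C : Ctx x y) : ∃ h, x.f h = false ∧ y.f h = true := by
  by_contra hn
  push Not at hn
  apply C.hne
  funext h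
  cases hx : x.f h
  · cases hy : y.f h
    · rfl
    · exact absurd hy (hn h hx)
  · rw [C.hf h hx]

theorem cpos (C : Ctx x y) {K : Finset E} (h1 : x.K ⊆ K) (h2 : K ⊆ y.K) : 1 ≤ c x y K := by
  rw [Nat.one_le_iff_ne_zero]
  intro h0
  unfold c at h0
  rw [C.W.cn0 K _ (C.invZ h1 h2)] at h0
  obtain ⟨h, ha, hb⟩ := C.exZ
  have := h0 h
  simp [ha, hb] at this

theorem stepS (C : Ctx x y) {K : Finset E} (h1 : x.K ⊆ K) (h2 : K ⊆ y.K) {e : E} (he : e ∈ y.K)
    (heK : e ∉ K) (hS : Same mate K (e, 0) (e, 2)) :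
    wt mate (insert e K) x.f = wt mate K x.f ∧ c x y (insert e K) = c x y K + 1 := by
  obtain ⟨k1, k2, k3, k4⟩ := C.full e (Finset.mem_sdiff.2 ⟨he, fun h => heK (h1 h)⟩)
  have a1 := C.W.s1 K e x.f heK (C.invx h1 h2) k1 k3 hS
  have a2 := C.W.sx K e y.f heK (C.invy h1 h2) k2 k4 hS
  have a3 := C.wty h1 h2
  have a4 := C.wty (K := insert e K) (h1.trans (Finset.subset_insert e K))
    (Finset.insert_subset he h2)
  refine ⟨a1, ?_⟩
  have : (c x y (insert e K) : ℤ) = c x y K + 1 := by linarith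
  exact_mod_cast this

theorem stepM (C : Ctx x y) {K : Finset E} (h1 : x.K ⊆ K) (h2 : K ⊆ y.K) {e : E} (he : e ∈ y.K)
    (heK : e ∉ K) (hS : ¬ Same mate K (e, 0) (e, 2)) :
    wt mate (insert e K) x.f = wt mate K x.f + 2 ∧ c x y (insert e K) + 1 = c x y K := by
  obtain ⟨k1, k2, k3, k4⟩ := C.full e (Finset.mem_sdiff.2 ⟨he, fun h => heK (h1 h)⟩)
  have a1 := C.W.m1 K e x.f heK (C.invx h1 h2) k1 k3 hS
  have a2 := C.W.mx K e y.f heK (C.invy h1 h2) k2 k4 hS
  have a3 := C.wty h1 h2
  have a4 := C.wty (K := insert e K) (h1.trans (Finset.subset_insert e K))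
    (Finset.insert_subset he h2)
  refine ⟨a1, ?_⟩
  have : (c x y (insert e K) : ℤ) + 1 = c x y K := by linarith
  exact_mod_cast this

theorem sum (C : Ctx x y) : ∀ D : Finset E, D ⊆ y.K \ x.K →
    wt mate (D ∪ x.K) x.f + (c x y (D ∪ x.K) : ℤ) = x.w + c x y x.K + D.card := by
  intro D
  induction D using Finset.induction_on with
  | empty => intro _; simp [Cfg.w]
  | insert e D heD ih =>
    intro hD
    rw [Finset.insert_subset_iff] at hD
    have h1 := ih hD.2
    have h2 : x.K ⊆ D ∪ x.K := Finset.subset_union_right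
    have h3 : D ∪ x.K ⊆ y.K := Finset.union_subset (hD.2.trans Finset.sdiff_subset) C.hK
    have he := Finset.mem_sdiff.1 hD.1
    have heK : e ∉ D ∪ x.K := by
      rw [Finset.mem_union]
      rintro (h | h)
      · exact heD h
      · exact he.2 h
    rw [Finset.insert_union, Finset.card_insert_of_notMem heD]
    push_cast
    by_cases hS : Same mate (D ∪ x.K) (e, 0) (e, 2)
    · obtain ⟨a1, a2⟩ := C.stepS h2 h3 he.1 heK hS
      rw [a1, a2]
      push_cast
      linarith
    · obtain ⟨a1, a2⟩ := C.stepM h2 h3 he.1 heK hS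
      rw [a1]
      have : (c x y (insert e (D ∪ x.K)) : ℤ) + 1 = c x y (D ∪ x.K) := by exact_mod_cast a2
      linarith

theorem total (C : Ctx x y) : (y.K \ x.K).card + c x y x.K + c x y y.K = 4 := by
  have h1 := C.sum (y.K \ x.K) (Finset.Subset.refl _)
  rw [Finset.sdiff_union_of_subset C.hK] at h1
  have h2 := C.wty C.hK (Finset.Subset.refl _)
  have h3 := C.hw
  unfold Cfg.w at h1 h3
  have : ((y.K \ x.K).card : ℤ) + c x y x.K + c x y y.K = 4 := by linarith
  exact_mod_cast this

/-- first term: target of the label preserving part -/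
def z1 (C : Ctx x y) : Cfg mate := ⟨y.K, x.f, C.invx C.hK (Finset.Subset.refl _)⟩

/-- second term -/
def z2 (C : Ctx x y) : Cfg mate := ⟨x.K, y.f, C.invy (Finset.Subset.refl _) C.hK⟩

theorem uniq1 (C : Ctx x y) {col : E × Fin 4 → Bool} {s : Bool} {t : E → Bool} (z : Cfg mate)
    (h : pD col s t x z ∧ pL t z y) : z = C.z1 := by
  obtain ⟨⟨⟨h1, h2, _, _⟩, _⟩, ⟨h3, h4, h5⟩, _⟩ := h
  have hK : z.K = y.K := by
    apply Finset.Subset.antisymm h3
    intro e he
    by_contra hn
    obtain ⟨_, _, h6⟩ := h5 e he hn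
    have hx : e ∈ y.K \ x.K := Finset.mem_sdiff.2 ⟨he, fun h => hn (h2 h)⟩
    have h7 := C.full_pt hx (!t e)
    unfold tl at h6
    rw [← h1, h7.1, h7.2] at h6
    exact absurd h6 (by simp)
  exact Cfg.ext hK h1.symm

theorem uniq2 (C : Ctx x y) {col : E × Fin 4 → Bool} {s : Bool} {t : E → Bool} (z : Cfg mate)
    (h : pL t x z ∧ pD col s t z y) : z = C.z2 := by
  obtain ⟨⟨⟨h3, h4, h5⟩, _⟩, ⟨⟨h1, h2, _, _⟩, _⟩⟩ := h
  have hK : z.K = x.K := by
    apply Finset.Subset.antisymm _ h3
    intro e he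
    by_contra hn
    obtain ⟨_, _, h6⟩ := h5 e he hn
    have hx : e ∈ y.K \ x.K := Finset.mem_sdiff.2 ⟨h2 he, hn⟩
    have h7 := C.full_pt hx (!t e)
    unfold tl at h6
    rw [h1, h7.1, h7.2] at h6
    exact absurd h6 (by simp)
  exact Cfg.ext hK h1

theorem z1w (C : Ctx x y) : (C.z1).w = wt mate y.K x.f := rfl
theorem z2w (C : Ctx x y) : (C.z2).w = x.w + 2 * (c x y x.K : ℤ) := by
  have := C.wty (Finset.Subset.refl _) C.hK
  exact this

theorem yw (C : Ctx x y) : y.w = wt mate y.K x.f + 2 * (c x y y.K : ℤ) :=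
  C.wty C.hK (Finset.Subset.refl _)

theorem pL1 (C : Ctx x y) {t : E → Bool} : pL t C.z1 y ↔ c x y y.K = 1 := by
  have h := C.yw
  constructor
  · rintro ⟨_, h2⟩
    rw [C.z1w] at h2
    have : (c x y y.K : ℤ) = 1 := by linarith
    exact_mod_cast this
  · intro h2
    refine ⟨⟨Finset.Subset.refl _, C.hf, fun e he hn => absurd he hn⟩, ?_⟩
    rw [C.z1w, h, h2]
    norm_num

theorem pL2 (C : Ctx x y) {t : E → Bool} : pL t x C.z2 ↔ c x y x.K = 1 := by
  constructor
  · rintro ⟨_, h2⟩
    rw [C.z2w] at h2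
    have : (c x y x.K : ℤ) = 1 := by linarith
    exact_mod_cast this
  · intro h2
    refine ⟨⟨Finset.Subset.refl _, C.hf, fun e he hn => absurd he hn⟩, ?_⟩
    rw [C.z2w, h2]
    norm_num

/-- the third term, new crossings of the first step -/
theorem hdtl (C : Ctx x y) {t : E → Bool} {z : Cfg mate} (h : pL t x z ∧ pL t z y) {e : E}
    (he : e ∈ y.K \ x.K) :
    (e ∈ z.K → z.f (hd t e) = true ∧ z.f (tl t e) = false) ∧
    (e ∉ z.K → z.f (hd t e) = false ∧ z.f (tl t e) = true) := by
  obtain ⟨⟨⟨a1, a2, a3⟩, a4⟩, ⟨b1, b2, b3⟩, b4⟩ := h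
  obtain ⟨hy, hx⟩ := Finset.mem_sdiff.1 he
  have h7 := C.full_pt he (!t e)
  constructor
  · intro hz
    obtain ⟨_, k2, k3⟩ := a3 e hz hx
    refine ⟨k2, ?_⟩
    rw [← k3]
    exact h7.1
  · intro hz
    obtain ⟨k1, _, k3⟩ := b3 e hy hz
    refine ⟨k1, ?_⟩
    rw [k3]
    exact h7.2

/-- configurations with one more circle labelled `x` -/
noncomputable def zz (C : Ctx x y) {K : Finset E} (h1 : x.K ⊆ K) (h2 : K ⊆ y.K) (p : E × Fin 4) : Cfg mate :=
  ⟨K, fun h => x.f h || cl mate K p h, (C.invx h1 h2).or (cl_inv K p)⟩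

theorem zzw (C : Ctx x y) {K : Finset E} (h1 : x.K ⊆ K) (h2 : K ⊆ y.K) {p : E × Fin 4}
    (hp : x.f p = false) : (C.zz h1 h2 p).w = wt mate K x.f + 2 :=
  zc_w C.W (C.invx h1 h2) hp

theorem zz_le (C : Ctx x y) {K : Finset E} (h1 : x.K ⊆ K) (h2 : K ⊆ y.K) {p : E × Fin 4}
    (hp : y.f p = true) (h : E × Fin 4) (hh : (C.zz h1 h2 p).f h = true) : y.f h = true := by
  change (x.f h || cl mate K p h) = true at hh
  rw [Bool.or_eq_true] at hh
  rcases hh with hh | hh
  · exact C.hf h hh
  · rw [← cl_iff.1 hh y.f (C.invy h1 h2), hp]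

/-- uniqueness of the third term for a given state -/
theorem uniq3 (C : Ctx x y) {t : E → Bool} {z : Cfg mate} (h : pL t x z ∧ pL t z y) {K : Finset E}
    (h1 : x.K ⊆ K) (h2 : K ⊆ y.K) (hz : z.K = K) (hw : wt mate K x.f = x.w) {p : E × Fin 4}
    (hp : x.f p = false) (hp' : z.f p = true) : z = C.zz h1 h2 p := by
  apply Cfg.ext
  · exact hz
  · have h3 : Inv mate K z.f := by rw [← hz]; exact z.inv
    refine zc_unique C.W (C.invx h1 h2) h3 h.1.1.2.1 ?_ hp hp'
    have h4 := h.1.2
    unfold Cfg.w at h4 hw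
    rw [hz] at h4
    rw [h4, hw]

/-- existence of the third term -/
theorem ex3 (C : Ctx x y) {t : E → Bool} {K : Finset E}
    (h1 : x.K ⊆ K) (h2 : K ⊆ y.K) (hw : wt mate K x.f = x.w) {p : E × Fin 4}
    (hp : x.f p = false) (hp' : y.f p = true)
    (ha : ∀ e ∈ K, e ∉ x.K → cl mate K p (hd t e) = true ∧ cl mate K p (tl t e) = false)
    (hb : ∀ e ∈ y.K, e ∉ K → cl mate K p (hd t e) = false ∧ cl mate K p (tl t e) = true) :
    pL t x (C.zz h1 h2 p) ∧ pL t (C.zz h1 h2 p) y := by
  have hw1 := C.zzw h1 h2 hp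
  refine ⟨⟨⟨h1, ?_, ?_⟩, ?_⟩, ⟨h2, ?_, ?_⟩, ?_⟩
  · intro h hh
    show (x.f h || cl mate K p h) = true
    rw [hh]; rfl
  · intro e he hn
    have hf := Finset.mem_sdiff.2 ⟨h2 he, hn⟩
    obtain ⟨k1, k2⟩ := ha e he hn
    refine ⟨(C.full_pt hf _).1, ?_, ?_⟩
    · show (x.f _ || cl mate K p _) = true
      rw [k1]; simp
    · show _ = (x.f _ || cl mate K p _)
      rw [k2]; simp
  · rw [hw1, hw]
  · intro h hh
    exact C.zz_le h1 h2 hp' h hh
  · intro e he hn
    have hf := Finset.mem_sdiff.2 ⟨he, fun h => hn (h1 h)⟩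
    obtain ⟨k1, k2⟩ := hb e he hn
    refine ⟨?_, (C.full_pt hf _).2, ?_⟩
    · show (x.f _ || cl mate K p _) = false
      rw [k1]
      have := (C.full_pt hf (t e)).1
      unfold hd
      rw [this]; rfl
    · show (x.f _ || cl mate K p _) = _
      rw [k2]
      have := (C.full_pt hf (!t e)).2
      unfold tl
      rw [this]; simp
  · rw [hw1, hw, C.hw]
    ring

/-- decomposition of the square -/
theorem split (C : Ctx x y) (col : E × Fin 4 → Bool) (s : Bool) (t : E → Bool)
    [DecidablePred fun z : Cfg mate => pL t x z ∧ pL t z y]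
    [Decidable (pD col s t x C.z1 ∧ pL t C.z1 y)] [Decidable (pL t x C.z2 ∧ pD col s t C.z2 y)] :
    (((L0 t + dl col s t) * (L0 t + dl col s t) : Op mate)) y x =
      ((Finset.univ.filter fun z : Cfg mate => pL t x z ∧ pL t z y).card : ZMod 2) +
      (if pD col s t x C.z1 ∧ pL t C.z1 y then 1 else 0) +
      (if pL t x C.z2 ∧ pD col s t C.z2 y then 1 else 0) := by
  classical
  rw [L0_eq, dl_eq, add_mul, mul_add, mul_add]
  simp only [Matrix.add_apply]
  rw [ind_mul_apply, ind_mul_apply, ind_mul_apply, ind_mul_apply]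
  rw [cardu (fun z : Cfg mate => pD col s t x z ∧ pL t z y) C.z1 (fun z hz => C.uniq1 z hz)]
  rw [cardu (fun z : Cfg mate => pL t x z ∧ pD col s t z y) C.z2 (fun z hz => C.uniq2 z hz)]
  rw [card0 (fun z : Cfg mate => pD col s t x z ∧ pD col s t z y)
    (fun z hz => C.hne (hz.1.1.1.trans hz.2.1.1))]
  rw [add_zero, add_assoc, add_assoc]
  congr

theorem nil1 {col : E × Fin 4 → Bool} {s : Bool} {t : E → Bool} {a b : Cfg mate}
    (h : b.K \ a.K = ∅) : ¬ pD col s t a b := by
  rintro ⟨⟨_, _, h3, _⟩, _⟩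
  rw [h] at h3
  exact Finset.not_nonempty_empty h3

theorem case0 (C : Ctx x y) (h : y.K \ x.K = ∅) (t : E → Bool)
    [DecidablePred fun z : Cfg mate => pL t x z ∧ pL t z y] :
    ((Finset.univ.filter fun z : Cfg mate => pL t x z ∧ pL t z y).card : ZMod 2) = 0 := by
  have hxy : y.K = x.K := Finset.Subset.antisymm (Finset.sdiff_eq_empty_iff_subset.1 h) C.hK
  have hzK : ∀ z : Cfg mate, pL t x z ∧ pL t z y → z.K = x.K := by
    intro z hz
    exact Finset.Subset.antisymm (hxy ▸ hz.2.1.1) hz.1.1.1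
  have hin : ∀ z : Cfg mate, pL t x z ∧ pL t z y →
      Inv mate x.K (fun h => x.f h || (y.f h && !z.f h)) := by
    intro z hz
    have h1 : Inv mate x.K z.f := by rw [← hzK z hz]; exact z.inv
    exact x.inv.or ((C.invy (Finset.Subset.refl _) C.hK).and h1.not)
  let g : ∀ z : Cfg mate, z ∈ (Finset.univ.filter fun z : Cfg mate => pL t x z ∧ pL t z y) →
      Cfg mate := fun z hz => ⟨x.K, _, hin z (Finset.mem_filter.1 hz).2⟩
  have hg : ∀ z hz, g z hz ∈ (Finset.univ.filter fun z : Cfg mate => pL t x z ∧ pL t z y) := by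
    intro z hz
    have hz' := (Finset.mem_filter.1 hz).2
    have h1 : Inv mate x.K z.f := by rw [← hzK z hz']; exact z.inv
    have h2 := C.W.lab x.K z.f y.f h1 (C.invy (Finset.Subset.refl _) C.hK) hz'.2.1.2.1
    have h3 := C.W.lab x.K x.f _ x.inv (hin z hz') (fun h hh => by simp [hh])
    have h4 : (fun h => (x.f h || (y.f h && !z.f h)) && !x.f h) = fun h => y.f h && !z.f h := by
      funext h
      cases hx : x.f h
      · simp
      · simp [hz'.1.1.2.1 h hx]
    rw [h4] at h3
    have h5 : (g z hz).w = x.w + 2 := by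
      have e1 : (g z hz).w = wt mate x.K (fun h => x.f h || (y.f h && !z.f h)) := rfl
      have e2 : y.w = wt mate x.K y.f := by unfold Cfg.w; rw [hxy]
      have e3 : z.w = wt mate x.K z.f := by unfold Cfg.w; rw [hzK z hz']
      have e4 := hz'.2.2
      have e5 : x.w = wt mate x.K x.f := rfl
      rw [e1, h3, e5]
      rw [e2, e3] at e4
      linarith
    refine Finset.mem_filter.2 ⟨Finset.mem_univ _, ⟨⟨Finset.Subset.refl _, ?_, ?_⟩, h5⟩,
      ⟨C.hK, ?_, ?_⟩, ?_⟩
    · intro h hh
      show (x.f h || (y.f h && !z.f h)) = true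
      rw [hh]; rfl
    · intro e he hn
      exact absurd he hn
    · intro h hh
      change (x.f h || (y.f h && !z.f h)) = true at hh
      rw [Bool.or_eq_true, Bool.and_eq_true] at hh
      rcases hh with hh | hh
      · exact C.hf h hh
      · exact hh.1
    · intro e he hn
      exact absurd (hxy ▸ he) hn
    · rw [h5, C.hw]; ring
  have key : ∑ z ∈ (Finset.univ.filter fun z : Cfg mate => pL t x z ∧ pL t z y), (1 : ZMod 2) = 0 := by
    refine Finset.sum_involution g ?_ ?_ hg ?_
    · intro z hz; exact CharTwo.add_self_eq_zero 1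
    · intro z hz _ he
      obtain ⟨h, ha, hb⟩ := C.exZ
      have h1 : (g z hz).f h = z.f h := by rw [he]
      change (x.f h || (y.f h && !z.f h)) = z.f h at h1
      rw [ha, hb] at h1
      cases hz : z.f h <;> simp [hz] at h1
    · intro z hz
      have hz' := (Finset.mem_filter.1 hz).2
      apply Cfg.ext
      · exact (hzK z hz').symm
      · funext h
        show (x.f h || (y.f h && !(x.f h || (y.f h && !z.f h)))) = z.f h
        have k1 := hz'.1.1.2.1 h
        have k2 := hz'.2.1.2.1 h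
        cases hx : x.f h <;> cases hy : y.f h <;> cases hzz : z.f h <;> simp_all
  rw [Finset.sum_const, nsmul_one] at key
  exact key

/-- the point lies in the class iff it lies in the circle -/
theorem cl_false {K : Finset E} {p h : E × Fin 4} (hn : ¬ Same mate K p h) :
    cl mate K p h = false := by
  rw [← Bool.not_eq_true, cl_iff]
  exact hn

theorem one {C : Ctx x y} (O : Ori mate) {e : E} (hS : y.K \ x.K = {e}) (col : E × Fin 4 → Bool)
    (s : Bool) (t : E → Bool)
    [DecidablePred fun z : Cfg mate => pL t x z ∧ pL t z y]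
    [Decidable (pD col s t x C.z1 ∧ pL t C.z1 y)] [Decidable (pL t x C.z2 ∧ pD col s t C.z2 y)] :
    ((Finset.univ.filter fun z : Cfg mate => pL t x z ∧ pL t z y).card : ZMod 2) +
      (if pD col s t x C.z1 ∧ pL t C.z1 y then 1 else 0) +
      (if pL t x C.z2 ∧ pD col s t C.z2 y then 1 else 0) = 0 := by
  have heS : e ∈ y.K \ x.K := by rw [hS]; exact Finset.mem_singleton_self e
  obtain ⟨hey, hex⟩ := Finset.mem_sdiff.1 heS
  have hyK : y.K = insert e x.K := by
    rw [← Finset.union_sdiff_of_subset C.hK, hS, Finset.union_comm]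
    rfl
  have hall : ∀ e' ∈ y.K, e' ∉ x.K → e' = e := by
    intro e' h1 h2
    have : e' ∈ y.K \ x.K := Finset.mem_sdiff.2 ⟨h1, h2⟩
    rw [hS] at this
    exact Finset.mem_singleton.1 this
  have htog : y.K = tog x.K e := by
    unfold tog
    rw [if_neg hex, hyK]
  have hO := O x.K e
  rw [← htog] at hO
  have htot := C.total
  rw [hS, Finset.card_singleton] at htot
  have hzK : ∀ z : Cfg mate, pL t x z ∧ pL t z y → z.K = x.K ∨ z.K = y.K := by
    intro z hz
    by_cases hez : e ∈ z.K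
    · right
      apply Finset.Subset.antisymm hz.2.1.1
      rw [hyK]
      exact Finset.insert_subset hez hz.1.1.1
    · left
      apply Finset.Subset.antisymm _ hz.1.1.1
      intro e' he'
      by_contra hn
      exact hez (hall e' (hz.2.1.1 he') hn ▸ he')
  have hfull := C.full e heS
  have ptS : ∀ (K : Finset E) (b : Bool), Same mate K (pt (e, b)) (pt (e, !b)) ↔
      Same mate K (e, 0) (e, 2) := by
    intro K b
    cases b
    · exact Iff.rfl
    · exact ⟨fun h => h.symm, fun h => h.symm⟩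
  have hhd := C.full_pt heS (t e)
  have htl := C.full_pt heS (!t e)
  by_cases hs : Same mate x.K (e, 0) (e, 2)
  · -- `(1, 2)`
    have hs' : ¬ Same mate y.K (e, 0) (e, 2) := fun h => (hO.1 h) hs
    obtain ⟨a1, a2⟩ := C.stepS (Finset.Subset.refl _) C.hK hey hex hs
    rw [← hyK] at a1 a2
    have c1 : c x y x.K = 1 := by omega
    have c2 : c x y y.K = 2 := by omega
    rw [if_neg, if_pos]
    · rw [cardu (fun z : Cfg mate => pL t x z ∧ pL t z y)
        (C.zz C.hK (Finset.Subset.refl _) (hd t e)), if_pos]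
      · decide
      · apply C.ex3 (p := hd t e) C.hK (Finset.Subset.refl _) a1 hhd.1 hhd.2
        · intro e' h1 h2
          rw [hall e' h1 h2]
          refine ⟨cl_self _ _, cl_false ?_⟩
          exact fun h => hs' ((ptS _ _).1 h)
        · intro e' h1 h2
          exact absurd h1 h2
      · intro z hz
        rcases hzK z hz with hzz | hzz
        · exfalso
          have h1 := (C.hdtl hz heS).2 (by rw [hzz]; exact hex)
          have h2 : z.f (hd t e) = z.f (tl t e) := by
            apply (ptS x.K (t e)).2 hs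
            rw [← hzz]; exact z.inv
          rw [h1.1, h1.2] at h2
          exact absurd h2 (by simp)
        · have h1 := (C.hdtl hz heS).1 (by rw [hzz]; exact hey)
          exact C.uniq3 hz C.hK (Finset.Subset.refl _) hzz a1 hhd.1 h1.1
    · refine ⟨C.pL2.2 c1, ⟨rfl, C.hK, ⟨e, heS⟩, ?_⟩, Or.inr ⟨?_, Or.inl ⟨?_, ?_⟩⟩⟩
      · rw [C.z2w, c1, C.hw]; ring
      · intro e' he'
        rw [show y.K \ C.z2.K = {e} from hS] at he'
        rw [Finset.mem_singleton.1 he']
        exact ⟨hfull.2.1, hfull.2.2.2⟩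
      · intro e1 h1 e2 h2
        rw [show y.K \ C.z2.K = {e} from hS] at h1 h2
        rw [Finset.mem_singleton.1 h1, Finset.mem_singleton.1 h2]
        exact ⟨Same.refl _ _, Same.refl _ _⟩
      · intro e1 h1
        rw [show y.K \ C.z2.K = {e} from hS] at h1
        rw [Finset.mem_singleton.1 h1]
        exact fun h => hs' ((ptS _ _).1 h)
    · rintro ⟨_, h⟩
      rw [C.pL1, c2] at h
      exact absurd h (by norm_num)
  · -- `(2, 1)`
    have hs' : Same mate y.K (e, 0) (e, 2) := hO.2 hs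
    obtain ⟨a1, a2⟩ := C.stepM (Finset.Subset.refl _) C.hK hey hex hs
    rw [← hyK] at a1 a2
    have c1 : c x y x.K = 2 := by omega
    have c2 : c x y y.K = 1 := by omega
    rw [if_pos, if_neg]
    · rw [cardu (fun z : Cfg mate => pL t x z ∧ pL t z y)
        (C.zz (Finset.Subset.refl _) C.hK (tl t e)), if_pos]
      · decide
      · apply C.ex3 (p := tl t e) (Finset.Subset.refl _) C.hK rfl htl.1 htl.2
        · intro e' h1 h2
          exact absurd h1 h2
        · intro e' h1 h2
          rw [hall e' h1 h2]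
          refine ⟨cl_false ?_, cl_self _ _⟩
          exact fun h => hs ((ptS _ _).1 h.symm)
      · intro z hz
        rcases hzK z hz with hzz | hzz
        · have h1 := (C.hdtl hz heS).2 (by rw [hzz]; exact hex)
          exact C.uniq3 hz (Finset.Subset.refl _) C.hK hzz rfl htl.1 h1.2
        · exfalso
          have h1 := (C.hdtl hz heS).1 (by rw [hzz]; exact hey)
          have h2 : z.f (hd t e) = z.f (tl t e) := by
            apply (ptS y.K (t e)).2 hs'
            rw [← hzz]; exact z.inv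
          rw [h1.1, h1.2] at h2
          exact absurd h2 (by simp)
    · rintro ⟨h, _⟩
      rw [C.pL2, c1] at h
      exact absurd h (by norm_num)
    · refine ⟨⟨⟨rfl, C.hK, ⟨e, heS⟩, ?_⟩, Or.inl ⟨?_, Or.inl ⟨?_, ?_⟩⟩⟩, C.pL1.2 c2⟩
      · rw [C.z1w, a1]; rfl
      · intro e' he'
        rw [show C.z1.K \ x.K = {e} from hS] at he'
        rw [Finset.mem_singleton.1 he']
        exact ⟨hfull.1, hfull.2.2.1⟩
      · intro e1 h1 e2 h2
        rw [show C.z1.K \ x.K = {e} from hS] at h1 h2
        rw [Finset.mem_singleton.1 h1, Finset.mem_singleton.1 h2]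
        exact ⟨Same.refl _ _, Same.refl _ _⟩
      · intro e1 h1
        rw [show C.z1.K \ x.K = {e} from hS] at h1
        rw [Finset.mem_singleton.1 h1]
        exact fun h => hs ((ptS _ _).1 h)

end Ctx

theorem pt_same (K : Finset E) (e : E) (b : Bool) : Same mate K (pt (e, b)) (pt (e, !b)) ↔
    Same mate K (e, 0) (e, 2) := by
  cases b
  · exact Iff.rfl
  · exact ⟨fun h => h.symm, fun h => h.symm⟩

/-- one of the two intermediate states when two crossings change -/
structure Mid (x y : Cfg mate) (e f : E) : Prop where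
  ne : e ≠ f
  ex : e ∉ x.K
  fx : f ∉ x.K
  ey : e ∈ y.K
  fy : f ∈ y.K
  hK1 : insert e x.K ⊆ y.K
  fK1 : f ∉ insert e x.K
  hy : y.K = insert f (insert e x.K)
  wK : wt mate (insert e x.K) x.f = x.w
  one : ∀ p q, x.f p = false → y.f p = true → x.f q = false → y.f q = true →
    Same mate x.K p q ∧ Same mate y.K p q
  nee : ¬ Same mate (insert e x.K) (e, 0) (e, 2)
  nff : ¬ Same mate (insert e x.K) (f, 0) (f, 2)
  dir : ∀ a b : Bool, (Same mate (insert e x.K) (pt (f, a)) (pt (e, b)) ∧
      Same mate (insert e x.K) (pt (f, !a)) (pt (e, !b))) ∨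
    (Same mate (insert e x.K) (pt (f, a)) (pt (e, !b)) ∧
      Same mate (insert e x.K) (pt (f, !a)) (pt (e, b)))

theorem mk_mid {x y : Cfg mate} (C : Ctx x y) (O : Ori mate) (J : JOI mate) {e f : E} (hef : e ≠ f)
    (hS : y.K \ x.K = {e, f}) : Mid x y e f := by
  have heS : e ∈ y.K \ x.K := by rw [hS]; simp
  have hfS : f ∈ y.K \ x.K := by rw [hS]; simp
  obtain ⟨hey, hex⟩ := Finset.mem_sdiff.1 heS
  obtain ⟨hfy, hfx⟩ := Finset.mem_sdiff.1 hfS
  have htot := C.total
  rw [hS, Finset.card_pair hef] at htot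
  have p1 := C.cpos (Finset.Subset.refl _) C.hK
  have p2 := C.cpos C.hK (Finset.Subset.refl _)
  have c1 : c x y x.K = 1 := by omega
  have c2 : c x y y.K = 1 := by omega
  have hK1 : insert e x.K ⊆ y.K := Finset.insert_subset hey C.hK
  have fK1 : f ∉ insert e x.K := by
    rw [Finset.mem_insert]
    rintro (h | h)
    · exact hef h.symm
    · exact hfx h
  have hy : y.K = insert f (insert e x.K) := by
    apply Finset.Subset.antisymm
    · intro g hg
      by_cases hgx : g ∈ x.K
      · simp [hgx]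
      · have : g ∈ y.K \ x.K := Finset.mem_sdiff.2 ⟨hg, hgx⟩
        rw [hS] at this
        simp only [Finset.mem_insert, Finset.mem_singleton] at this
        rcases this with h | h <;> simp [h]
    · exact Finset.insert_subset hfy hK1
  have hone : ∀ p q, x.f p = false → y.f p = true → x.f q = false → y.f q = true →
      Same mate x.K p q ∧ Same mate y.K p q := by
    intro p q h1 h2 h3 h4
    have k1 := (C.W.cn1 x.K _ (C.invZ (Finset.Subset.refl _) C.hK)).1 c1
    have k2 := (C.W.cn1 y.K _ (C.invZ C.hK (Finset.Subset.refl _))).1 c2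
    exact ⟨k1.2 p q (by simp [h1, h2]) (by simp [h3, h4]),
      k2.2 p q (by simp [h1, h2]) (by simp [h3, h4])⟩
  have fe := C.full e heS
  have ff := C.full f hfS
  have see : Same mate x.K (e, 0) (e, 2) := (hone _ _ fe.1 fe.2.1 fe.2.2.1 fe.2.2.2).1
  have sff : Same mate x.K (f, 0) (f, 2) := (hone _ _ ff.1 ff.2.1 ff.2.2.1 ff.2.2.2).1
  obtain ⟨a1, a2⟩ := C.stepS (Finset.Subset.refl _) C.hK hey hex see
  have htog : tog x.K e = insert e x.K := by unfold tog; rw [if_neg hex]
  have nee : ¬ Same mate (insert e x.K) (e, 0) (e, 2) := by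
    intro h
    rw [← htog] at h
    exact (O x.K e).1 h see
  have nff : ¬ Same mate (insert e x.K) (f, 0) (f, 2) := by
    intro h
    obtain ⟨b1, b2⟩ := C.stepS (Finset.subset_insert e x.K) hK1 hfy fK1 h
    rw [← hy] at b2
    omega
  refine ⟨hef, hex, hfx, hey, hfy, hK1, fK1, hy, a1, hone, nee, nff, ?_⟩
  have htog2 : tog (insert e x.K) e = x.K := by
    unfold tog
    rw [if_pos (Finset.mem_insert_self e x.K), Finset.erase_insert hex]
  have hJ := (J (insert e x.K) e nee).2
  rw [htog2] at hJ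
  intro a b
  have k1 : Same mate x.K (pt (f, a)) (pt (f, !a)) := (pt_same _ _ _).2 sff
  have k2 : ¬ Same mate (insert e x.K) (pt (f, a)) (pt (f, !a)) := fun h => nff ((pt_same _ _ _).1 h)
  have k3 := (hJ _ _).1 k1
  cases b
  · rcases k3 with h | h | h
    · exact absurd h k2
    · exact Or.inl h
    · exact Or.inr h
  · rcases k3 with h | h | h
    · exact absurd h k2
    · exact Or.inr h
    · exact Or.inl h

theorem TC_pair {A : Type} [DecidableEq A] {R : A × Bool → A × Bool → Prop}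
    {R1 : A → A × Bool → A × Bool → Prop} {s : Bool} {kind : A → Bool} {t : A → Bool} {e f : A}
    (hk : kind e ≠ kind f) (h1 : ∀ a b, R (e, a) (e, b)) (h2 : ∀ a b, R (f, a) (f, b))
    (h3 : ∀ a b, R (e, a) (f, b)) (h4 : ∀ a b, R (f, a) (e, b)) :
    TC s kind R R1 t {e, f} ↔
      (R1 e (f, t f) (e, sn s (t e)) ∧ R1 e (f, !t f) (e, !sn s (t e))) ∧
      (R1 f (e, t e) (f, sn s (t f)) ∧ R1 f (e, !t e) (f, !sn s (t f))) := by
  rw [TC_iff]
  constructor
  · rintro ⟨_, _, _, h⟩
    exact ⟨h e (by simp) f (by simp) hk, h f (by simp) e (by simp) hk.symm⟩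
  · rintro ⟨k1, k2⟩
    refine ⟨?_, ?_, ?_, ?_⟩
    · intro a ha b hb
      simp only [Finset.mem_insert, Finset.mem_singleton] at ha hb
      rcases ha with rfl | rfl <;> rcases hb with rfl | rfl
      · exact ⟨h1 _ _, h1 _ _⟩
      · exact ⟨h3 _ _, h3 _ _⟩
      · exact ⟨h4 _ _, h4 _ _⟩
      · exact ⟨h2 _ _, h2 _ _⟩
    · cases he : kind e
      · exact ⟨f, by simp, by cases hf : kind f <;> simp_all⟩
      · exact ⟨e, by simp, he⟩
    · cases he : kind e
      · exact ⟨e, by simp, he⟩
      · exact ⟨f, by simp, by cases hf : kind f <;> simp_all⟩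
    · intro a ha b hb hab
      simp only [Finset.mem_insert, Finset.mem_singleton] at ha hb
      rcases ha with rfl | rfl <;> rcases hb with rfl | rfl
      · exact absurd rfl hab
      · exact k1
      · exact k2
      · exact absurd rfl hab

/-- the cross relation is symmetric by the signed intersection formula -/
theorem cross {x y : Cfg mate} (hO : S_OSG) {col : E × Fin 4 → Bool} (D : Dia mate col)
    {e f : E} (M : Mid x y e f) (M' : Mid x y f e) (hk : col (e, 0) ≠ col (f, 0)) (t : E → Bool) :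
    Same mate (insert e x.K) (hd t e) (tl t f) ↔ Same mate (insert f x.K) (hd t f) (tl t e) := by
  have h := hO E mate col D.mm D.cm D.ca (insert e x.K) (insert f x.K)
    (cl mate (insert e x.K) (hd t e)) (cl mate (insert f x.K) (hd t f)) (cl_inv _ _) (cl_inv _ _)
  have hsd : symmDiff (insert e x.K) (insert f x.K) = {e, f} := by
    ext g
    simp only [Finset.mem_symmDiff, Finset.mem_insert, Finset.mem_singleton]
    constructor
    · rintro (⟨h1 | h1, h2⟩ | ⟨h1 | h1, h2⟩)
      · exact Or.inl h1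
      · exact absurd (Or.inr h1) h2
      · exact Or.inr h1
      · exact absurd (Or.inr h1) h2
    · rintro (h1 | h1)
      · subst h1
        exact Or.inl ⟨Or.inl rfl, fun h => h.elim M.ne M.ex⟩
      · subst h1
        exact Or.inr ⟨Or.inl rfl, fun h => h.elim (fun h => M.ne h.symm) M.fx⟩
  rw [hsd, Finset.sum_pair M.ne] at h
  -- values of the first indicator
  have u1 : cl mate (insert e x.K) (hd t e) (pt (e, t e)) = true := cl_self _ _
  have u2 : cl mate (insert e x.K) (hd t e) (pt (e, !t e)) = false :=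
    Ctx.cl_false fun h => M.nee ((pt_same _ _ _).1 h)
  have u3 : cl mate (insert e x.K) (hd t e) (pt (f, !t f)) =
      !cl mate (insert e x.K) (hd t e) (pt (f, t f)) := by
    rcases M.dir (t f) (t e) with ⟨d1, d2⟩ | ⟨d1, d2⟩
    · have w1 : cl mate (insert e x.K) (hd t e) (pt (f, t f)) = true := cl_iff.2 d1.symm
      rw [w1]
      exact Ctx.cl_false fun h => M.nee ((pt_same _ _ (t e)).1 (h.trans d2))
    · have w1 : cl mate (insert e x.K) (hd t e) (pt (f, !t f)) = true := cl_iff.2 d2.symm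
      have w2 : cl mate (insert e x.K) (hd t e) (pt (f, t f)) = false :=
        Ctx.cl_false fun h => M.nee ((pt_same _ _ (t e)).1 (h.trans d1))
      rw [w1, w2]
      rfl
  have v1 : cl mate (insert f x.K) (hd t f) (pt (f, t f)) = true := cl_self _ _
  have v2 : cl mate (insert f x.K) (hd t f) (pt (f, !t f)) = false :=
    Ctx.cl_false fun h => M'.nee ((pt_same _ _ _).1 h)
  have v3 : cl mate (insert f x.K) (hd t f) (pt (e, !t e)) =
      !cl mate (insert f x.K) (hd t f) (pt (e, t e)) := by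
    rcases M'.dir (t e) (t f) with ⟨d1, d2⟩ | ⟨d1, d2⟩
    · have w1 : cl mate (insert f x.K) (hd t f) (pt (e, t e)) = true := cl_iff.2 d1.symm
      rw [w1]
      exact Ctx.cl_false fun h => M'.nee ((pt_same _ _ (t f)).1 (h.trans d2))
    · have w1 : cl mate (insert f x.K) (hd t f) (pt (e, !t e)) = true := cl_iff.2 d2.symm
      have w2 : cl mate (insert f x.K) (hd t f) (pt (e, t e)) = false :=
        Ctx.cl_false fun h => M'.nee ((pt_same _ _ (t f)).1 (h.trans d1))
      rw [w1, w2]
      rfl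
  unfold tl
  rw [← cl_iff, ← cl_iff, u3, v3]
  generalize cl mate (insert e x.K) (hd t e) = u at *
  generalize cl mate (insert f x.K) (hd t f) = v at *
  have pt2 : ∀ g : E, pt (g, true) = (g, 2) := fun g => rfl
  have pt0 : ∀ g : E, pt (g, false) = (g, 0) := fun g => rfl
  cases hte : t e <;> cases htf : t f <;>
    simp only [hte, htf, Bool.not_true, Bool.not_false, pt2, pt0] at u1 u2 u3 v1 v2 v3 ⊢ <;>
    rw [u1, u2, u3, v1, v2, v3] at h <;>
    cases hce : col (e, 0) <;> cases hcf : col (f, 0) <;>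
    simp only [hce, hcf, ne_eq, not_true_eq_false] at hk h ⊢ <;>
    cases hu0 : u (f, 0) <;> cases hu2 : u (f, 2) <;> cases hv0 : v (e, 0) <;>
    cases hv2 : v (e, 2) <;>
    simp_all [bz]

theorem Same.comm' {K : Finset E} {p q : E × Fin 4} : Same mate K p q ↔ Same mate K q p :=
  ⟨fun h => h.symm, fun h => h.symm⟩

theorem half {x y : Cfg mate} (C : Ctx x y) {e f : E} (M : Mid x y e f) {t : E → Bool}
    {z : Cfg mate} (hz : pL t x z ∧ pL t z y) (he : e ∈ z.K) (hf : f ∉ z.K) :
    z = C.zz (Finset.subset_insert e x.K) M.hK1 (hd t e) ∧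
      Same mate (insert e x.K) (hd t e) (tl t f) := by
  have heS : e ∈ y.K \ x.K := Finset.mem_sdiff.2 ⟨M.ey, M.ex⟩
  have hfS : f ∈ y.K \ x.K := Finset.mem_sdiff.2 ⟨M.fy, M.fx⟩
  have hK : z.K = insert e x.K := by
    apply Finset.Subset.antisymm
    · intro g hg
      have h1 := hz.2.1.1 hg
      rw [M.hy, Finset.mem_insert] at h1
      rcases h1 with h1 | h1
      · exact absurd (h1 ▸ hg) hf
      · exact h1
    · exact Finset.insert_subset he hz.1.1.1
  have h1 := (C.hdtl hz heS).1 he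
  have h2 := (C.hdtl hz hfS).2 hf
  have h3 := C.uniq3 hz (Finset.subset_insert e x.K) M.hK1 hK M.wK (C.full_pt heS (t e)).1 h1.1
  refine ⟨h3, ?_⟩
  have h4 := h2.2
  rw [h3] at h4
  change (x.f (tl t f) || cl mate (insert e x.K) (hd t e) (tl t f)) = true at h4
  have h5 : x.f (tl t f) = false := (C.full_pt hfS (!t f)).1
  rw [h5, Bool.false_or, cl_iff] at h4
  exact h4

theorem half2 {x y : Cfg mate} (C : Ctx x y) {e f : E} (M : Mid x y e f) {t : E → Bool}
    (h : Same mate (insert e x.K) (hd t e) (tl t f)) :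
    pL t x (C.zz (Finset.subset_insert e x.K) M.hK1 (hd t e)) ∧
      pL t (C.zz (Finset.subset_insert e x.K) M.hK1 (hd t e)) y := by
  have heS : e ∈ y.K \ x.K := Finset.mem_sdiff.2 ⟨M.ey, M.ex⟩
  apply C.ex3 (p := hd t e) _ M.hK1 M.wK (C.full_pt heS (t e)).1 (C.full_pt heS (t e)).2
  · intro g h1 h2
    have hg : g = e := by
      rw [Finset.mem_insert] at h1
      rcases h1 with h1 | h1
      · exact h1
      · exact absurd h1 h2
    subst hg
    exact ⟨cl_self _ _, Ctx.cl_false fun h => M.nee ((pt_same _ _ _).1 h)⟩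
  · intro g h1 h2
    have hg : g = f := by
      rw [M.hy, Finset.mem_insert] at h1
      rcases h1 with h1 | h1
      · exact h1
      · exact absurd h1 h2
    subst hg
    refine ⟨Ctx.cl_false fun h' => M.nff ((pt_same _ _ (t g)).1 (h'.symm.trans h)), cl_iff.2 h⟩

theorem twoN3 {x y : Cfg mate} (C : Ctx x y) {e f : E} (M : Mid x y e f) (M' : Mid x y f e)
    {t : E → Bool}
    (hc : Same mate (insert e x.K) (hd t e) (tl t f) ↔ Same mate (insert f x.K) (hd t f) (tl t e))
    [DecidablePred fun z : Cfg mate => pL t x z ∧ pL t z y] :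
    ((Finset.univ.filter fun z : Cfg mate => pL t x z ∧ pL t z y).card : ZMod 2) = 0 := by
  have heS : e ∈ y.K \ x.K := Finset.mem_sdiff.2 ⟨M.ey, M.ex⟩
  have hfS : f ∈ y.K \ x.K := Finset.mem_sdiff.2 ⟨M.fy, M.fx⟩
  have fe := C.full_pt heS
  have hP : ∀ z : Cfg mate, pL t x z ∧ pL t z y →
      (z = C.zz (Finset.subset_insert e x.K) M.hK1 (hd t e) ∧
        Same mate (insert e x.K) (hd t e) (tl t f)) ∨
      (z = C.zz (Finset.subset_insert f x.K) M'.hK1 (hd t f) ∧
        Same mate (insert f x.K) (hd t f) (tl t e)) := by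
    intro z hz
    by_cases he : e ∈ z.K <;> by_cases hf : f ∈ z.K
    · exfalso
      have h1 := (C.hdtl hz heS).1 he
      have hK : z.K = y.K := by
        apply Finset.Subset.antisymm hz.2.1.1
        rw [M.hy]
        exact Finset.insert_subset hf (Finset.insert_subset he hz.1.1.1)
      have h2 : Same mate y.K (hd t e) (tl t e) :=
        (M.one _ _ (fe _).1 (fe _).2 (fe _).1 (fe _).2).2
      have h3 : z.f (hd t e) = z.f (tl t e) := by
        apply h2
        rw [← hK]; exact z.inv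
      rw [h1.1, h1.2] at h3
      exact absurd h3 (by simp)
    · exact Or.inl (half C M hz he hf)
    · exact Or.inr (half C M' hz hf he)
    · exfalso
      have h1 := (C.hdtl hz heS).2 he
      have hK : z.K = x.K := by
        apply Finset.Subset.antisymm _ hz.1.1.1
        intro g hg
        have h1 := hz.2.1.1 hg
        rw [M.hy, Finset.mem_insert, Finset.mem_insert] at h1
        rcases h1 with h1 | h1 | h1
        · exact absurd (h1 ▸ hg) hf
        · exact absurd (h1 ▸ hg) he
        · exact h1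
      have h2 : Same mate x.K (hd t e) (tl t e) :=
        (M.one _ _ (fe _).1 (fe _).2 (fe _).1 (fe _).2).1
      have h3 : z.f (hd t e) = z.f (tl t e) := by
        apply h2
        rw [← hK]; exact z.inv
      rw [h1.1, h1.2] at h3
      exact absurd h3 (by simp)
  by_cases h1 : Same mate (insert e x.K) (hd t e) (tl t f)
  · have h2 := hc.1 h1
    have k1 := half2 C M h1
    have k2 := half2 C M' h2
    have hne : C.zz (Finset.subset_insert e x.K) M.hK1 (hd t e) ≠
        C.zz (Finset.subset_insert f x.K) M'.hK1 (hd t f) := by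
      intro h
      have h3 : insert e x.K = insert f x.K := congrArg Cfg.K h
      have h4 : e ∈ insert f x.K := by rw [← h3]; exact Finset.mem_insert_self e x.K
      exact M'.fK1 h4
    have hF : (Finset.univ.filter fun z : Cfg mate => pL t x z ∧ pL t z y) =
        {C.zz (Finset.subset_insert e x.K) M.hK1 (hd t e),
          C.zz (Finset.subset_insert f x.K) M'.hK1 (hd t f)} := by
      ext z
      simp only [Finset.mem_filter, Finset.mem_univ, true_and, Finset.mem_insert,
        Finset.mem_singleton]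
      constructor
      · intro hz
        rcases hP z hz with h | h
        · exact Or.inl h.1
        · exact Or.inr h.1
      · rintro (h | h)
        · rw [h]; exact k1
        · rw [h]; exact k2
    rw [hF, Finset.card_pair hne]
    decide
  · apply card0
    intro z hz
    rcases hP z hz with h | h
    · exact h1 h.2
    · exact h1 (hc.2 h.2)

theorem pD1 {x y : Cfg mate} (C : Ctx x y) {e f : E} (M : Mid x y e f) (hS : y.K \ x.K = {e, f})
    {col : E × Fin 4 → Bool} {s : Bool} {t : E → Bool} :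
    pD col s t x C.z1 ↔ TC s (fun e => col (e, 0)) (fun p q => Same mate x.K (pt p) (pt q))
           (fun e p q => Same mate (insert e x.K) (pt p) (pt q)) t {e, f} := by
  have heS : e ∈ y.K \ x.K := Finset.mem_sdiff.2 ⟨M.ey, M.ex⟩
  have fe := C.full_pt heS
  have hS' : C.z1.K \ x.K = {e, f} := hS
  unfold pD
  rw [hS']
  constructor
  · rintro ⟨_, ⟨_, h | h⟩ | ⟨h, _⟩⟩
    · exfalso
      exact h.2 e (by simp) (M.one _ _ (fe _).1 (fe _).2 (fe _).1 (fe _).2).1
    · exact h
    · exfalso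
      have h1 := (h e (by simp)).1
      rw [(C.full e heS).1] at h1
      exact absurd h1 (by simp)
  · intro h
    refine ⟨⟨rfl, C.hK, ⟨e, by simp⟩, ?_⟩, Or.inl ⟨?_, Or.inr h⟩⟩
    · have h1 := (C.stepM (Finset.subset_insert e x.K) M.hK1 M.fy M.fK1 M.nff).1
      rw [← M.hy] at h1
      rw [C.z1w, h1, M.wK]
    · intro g hg
      rw [← hS] at hg
      have := C.full g hg
      exact ⟨this.1, this.2.2.1⟩

theorem pD2 {x y : Cfg mate} (C : Ctx x y) {e f : E} (M : Mid x y e f) (hS : y.K \ x.K = {e, f})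
    {col : E × Fin 4 → Bool} {s : Bool} {t : E → Bool} :
    pD col s t C.z2 y ↔ TC s (fun e => col (e, 0)) (fun p q => Same mate y.K (pt p) (pt q))
           (fun e p q => Same mate (y.K.erase e) (pt p) (pt q)) t {e, f} := by
  have heS : e ∈ y.K \ x.K := Finset.mem_sdiff.2 ⟨M.ey, M.ex⟩
  have fe := C.full_pt heS
  have hS' : y.K \ C.z2.K = {e, f} := hS
  have htot := C.total
  rw [hS, Finset.card_pair M.ne] at htot
  have p1 := C.cpos (Finset.Subset.refl _) C.hK
  have p2 := C.cpos C.hK (Finset.Subset.refl _)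
  have c1 : c x y x.K = 1 := by omega
  unfold pD
  rw [hS']
  constructor
  · rintro ⟨_, ⟨h, _⟩ | ⟨_, h | h⟩⟩
    · exfalso
      have h1 := (h e (by simp)).1
      change y.f (e, 0) = false at h1
      rw [(C.full e heS).2.1] at h1
      exact absurd h1 (by simp)
    · exfalso
      exact h.2 e (by simp) (M.one _ _ (fe _).1 (fe _).2 (fe _).1 (fe _).2).2
    · exact h
  · intro h
    refine ⟨⟨rfl, C.hK, ⟨e, by simp⟩, ?_⟩, Or.inr ⟨?_, Or.inr h⟩⟩
    · rw [C.z2w, c1, C.hw]
      ring
    · intro g hg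
      rw [← hS] at hg
      have := C.full g hg
      exact ⟨this.2.1, this.2.2.2⟩

theorem pD12 {x y : Cfg mate} (C : Ctx x y) {e f : E} (M : Mid x y e f) (M' : Mid x y f e)
    (hS : y.K \ x.K = {e, f})
    {col : E × Fin 4 → Bool} {s : Bool} {t : E → Bool} (hk : col (e, 0) ≠ col (f, 0)) :
    pD col s t x C.z1 ↔ pD col s t C.z2 y := by
  have heS : e ∈ y.K \ x.K := Finset.mem_sdiff.2 ⟨M.ey, M.ex⟩
  have hfS : f ∈ y.K \ x.K := Finset.mem_sdiff.2 ⟨M.fy, M.fx⟩
  have fe := C.full_pt heS
  have ff := C.full_pt hfS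
  have s1 : ∀ p q : E × Bool, x.f (pt p) = false → y.f (pt p) = true → x.f (pt q) = false →
      y.f (pt q) = true → Same mate x.K (pt p) (pt q) := fun p q a b c d => (M.one _ _ a b c d).1
  have s2 : ∀ p q : E × Bool, x.f (pt p) = false → y.f (pt p) = true → x.f (pt q) = false →
      y.f (pt q) = true → Same mate y.K (pt p) (pt q) := fun p q a b c d => (M.one _ _ a b c d).2
  rw [pD1 C M hS, pD2 C M hS]
  rw [TC_pair (kind := fun e => col (e, 0)) hk
    (fun a b => s1 _ _ (fe a).1 (fe a).2 (fe b).1 (fe b).2)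
    (fun a b => s1 _ _ (ff a).1 (ff a).2 (ff b).1 (ff b).2)
    (fun a b => s1 _ _ (fe a).1 (fe a).2 (ff b).1 (ff b).2)
    (fun a b => s1 _ _ (ff a).1 (ff a).2 (fe b).1 (fe b).2)]
  rw [TC_pair (kind := fun e => col (e, 0)) hk
    (fun a b => s2 _ _ (fe a).1 (fe a).2 (fe b).1 (fe b).2)
    (fun a b => s2 _ _ (ff a).1 (ff a).2 (ff b).1 (ff b).2)
    (fun a b => s2 _ _ (fe a).1 (fe a).2 (ff b).1 (ff b).2)
    (fun a b => s2 _ _ (ff a).1 (ff a).2 (fe b).1 (fe b).2)]
  have e1 : y.K.erase e = insert f x.K := by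
    rw [M'.hy]; exact Finset.erase_insert M'.fK1
  have e2 : y.K.erase f = insert e x.K := by
    rw [M.hy]; exact Finset.erase_insert M.fK1
  rw [e1, e2]
  cases s
  · simp only [sn, Bool.false_eq_true, if_false, Bool.not_not]
    constructor
    · rintro ⟨⟨a, b⟩, c, d⟩
      exact ⟨⟨d.symm, c.symm⟩, b.symm, a.symm⟩
    · rintro ⟨⟨a, b⟩, c, d⟩
      exact ⟨⟨d.symm, c.symm⟩, b.symm, a.symm⟩
  · simp only [sn, if_true]
    constructor
    · rintro ⟨⟨a, b⟩, c, d⟩
      exact ⟨⟨c.symm, d.symm⟩, a.symm, b.symm⟩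
    · rintro ⟨⟨a, b⟩, c, d⟩
      exact ⟨⟨c.symm, d.symm⟩, a.symm, b.symm⟩

theorem two {x y : Cfg mate} (C : Ctx x y) (hO : S_OSG) {col : E × Fin 4 → Bool}
    (D : Dia mate col) (O : Ori mate) (J : JOI mate) {e f : E} (hef : e ≠ f)
    (hS : y.K \ x.K = {e, f}) (s : Bool) (t : E → Bool)
    [DecidablePred fun z : Cfg mate => pL t x z ∧ pL t z y]
    [Decidable (pD col s t x C.z1 ∧ pL t C.z1 y)] [Decidable (pL t x C.z2 ∧ pD col s t C.z2 y)] :
    ((Finset.univ.filter fun z : Cfg mate => pL t x z ∧ pL t z y).card : ZMod 2) +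
      (if pD col s t x C.z1 ∧ pL t C.z1 y then 1 else 0) +
      (if pL t x C.z2 ∧ pD col s t C.z2 y then 1 else 0) = 0 := by
  have M := mk_mid C O J hef hS
  have M' := mk_mid C O J hef.symm (hS.trans (Finset.pair_comm e f))
  have heS : e ∈ y.K \ x.K := Finset.mem_sdiff.2 ⟨M.ey, M.ex⟩
  have hfS : f ∈ y.K \ x.K := Finset.mem_sdiff.2 ⟨M.fy, M.fx⟩
  have fe := C.full e heS
  have ff := C.full f hfS
  have hk : col (e, 0) ≠ col (f, 0) := by
    have h1 : tog x.K e = insert e x.K := by unfold tog; rw [if_neg M.ex]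
    have h2 := D.pl x.K e f hef (M.one _ _ fe.1 fe.2.1 fe.2.2.1 fe.2.2.2).1
      (M.one _ _ ff.1 ff.2.1 ff.2.2.1 ff.2.2.2).1 (by rw [h1]; exact M.nff)
    simpa [M.ex, M.fx] using h2
  rw [twoN3 C M M' (cross hO D M M' hk t)]
  have htot := C.total
  rw [hS, Finset.card_pair M.ne] at htot
  have p1 := C.cpos (Finset.Subset.refl _) C.hK
  have p2 := C.cpos C.hK (Finset.Subset.refl _)
  have c1 : c x y x.K = 1 := by omega
  have c2 : c x y y.K = 1 := by omega
  have hiff : (pD col s t x C.z1 ∧ pL t C.z1 y) ↔ (pL t x C.z2 ∧ pD col s t C.z2 y) := by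
    rw [pD12 C M M' hS hk, C.pL1, C.pL2]
    simp only [c1, c2, true_and, and_true]
  by_cases h : pD col s t x C.z1 ∧ pL t C.z1 y
  · rw [if_pos h, if_pos (hiff.1 h)]
    decide
  · rw [if_neg h, if_neg (fun h' => h (hiff.2 h'))]
    decide

theorem p2b : S_P2B := by
  intro hO E _ _ mate col D O J W s t x y hne full
  classical
  by_cases hctx : x.K ⊆ y.K ∧ (∀ h, x.f h = true → y.f h = true) ∧ y.w = x.w + 4
  · have C : Ctx x y := ⟨W, hctx.1, hctx.2.1, full, hctx.2.2, hne⟩
    rw [C.split col s t]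
    have htot := C.total
    have p1 := C.cpos (Finset.Subset.refl _) C.hK
    have p2 := C.cpos C.hK (Finset.Subset.refl _)
    have hcard : (y.K \ x.K).card = 0 ∨ (y.K \ x.K).card = 1 ∨ (y.K \ x.K).card = 2 := by omega
    rcases hcard with h | h | h
    · rw [Finset.card_eq_zero] at h
      rw [C.case0 h, if_neg, if_neg]
      · decide
      · rintro ⟨_, h'⟩
        exact Ctx.nil1 (a := C.z2) (b := y) h h'
      · rintro ⟨h', _⟩
        exact Ctx.nil1 (a := x) (b := C.z1) h h'
    · rw [Finset.card_eq_one] at h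
      obtain ⟨e, he⟩ := h
      exact C.one O he col s t
    · rw [Finset.card_eq_two] at h
      obtain ⟨e, f, hef, hS⟩ := h
      exact two C hO D O J hef hS s t
  · have mL : ∀ a b : Cfg mate, pL t a b → a.K ⊆ b.K ∧ (∀ h, a.f h = true → b.f h = true) ∧
        b.w = a.w + 2 := fun a b h => ⟨h.1.1, h.1.2.1, h.2⟩
    have mD : ∀ a b : Cfg mate, pD col s t a b → a.K ⊆ b.K ∧ (∀ h, a.f h = true → b.f h = true) ∧
        b.w = a.w + 2 := fun a b h => ⟨h.1.2.1, fun p hp => by rw [← h.1.1]; exact hp, h.1.2.2.2⟩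
    have key : ∀ z : Cfg mate, (x.K ⊆ z.K ∧ (∀ h, x.f h = true → z.f h = true) ∧
        z.w = x.w + 2) → (z.K ⊆ y.K ∧ (∀ h, z.f h = true → y.f h = true) ∧ y.w = z.w + 2) →
        False := by
      intro z h1 h2
      apply hctx
      refine ⟨h1.1.trans h2.1, fun p hp => h2.2.1 p (h1.2.1 p hp), ?_⟩
      rw [h2.2.2, h1.2.2]; ring
    rw [L0_eq, dl_eq, add_mul, mul_add, mul_add]
    simp only [Matrix.add_apply]
    rw [ind_mul_apply, ind_mul_apply, ind_mul_apply, ind_mul_apply]
    rw [card0, card0, card0, card0]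
    · simp
    all_goals
      rintro z ⟨h1, h2⟩
      first
        | exact key z (mL _ _ h1) (mL _ _ h2)
        | exact key z (mL _ _ h1) (mD _ _ h2)
        | exact key z (mD _ _ h1) (mL _ _ h2)
        | exact key z (mD _ _ h1) (mD _ _ h2)

end Pool.Agent.Y284.SZ.P2B
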